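import Pool.Agent.Helper91.TM.A
import Pool.Agent.Helper91.BX.T

/-!
Taylor model machine (MP_c75db0, star frame): ONE MORE DIRECTION. From a machine `lf` with `D`
parameters to the machine `nM D lf` of the quadratic functions (`N3`) of one more parameter.
-/

set_option autoImplicit false
noncomputable section
namespace Pool.Agent.Helper91.TMK

open Pool.Agent.Helper90.C75
open Pool.Agent.Helper90.KMO
open Pool.Agent.Helper90.KMT (c3 c3_bi c3_un)
open Pool.Agent.Helper86.C75 (Z)
open Pool.Agent.Helper86.CX (Cx mx one1)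
open Pool.Agent.Helper86.CT (N3 DF Alg Mo mxL un bi mulN invN invN1 nbN dfN mk cst)
open Pool.Agent.Helper91.BX (upM upW upV tu tu_self tu_lt)

/-! ### lists -/

/-- every entry is at most the other one -/
def LE2 (l l' : List (ℝ × ℝ)) : Prop :=
  List.Forall₂ (fun x y : ℝ × ℝ => x.1 ≤ y.1 ∧ x.2 ≤ y.2) l l'

theorem LE2.rfl' : ∀ {l : List (ℝ × ℝ)}, LE2 l l
  | [] => List.Forall₂.nil
  | _ :: _ => List.Forall₂.cons ⟨le_rfl, le_rfl⟩ LE2.rfl'

theorem erz_cons {p q : ℝ × ℝ} {l l' : List (ℝ × ℝ)} (h : NN (p :: l)) (h' : NN (q :: l')) :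
    erz l l' ≤ erz (p :: l) (q :: l') := by
  obtain ⟨D, F⟩ := p
  obtain ⟨D', F'⟩ := q
  have h1 := h (D, F) (List.mem_cons_self ..)
  have h2 := h' (D', F') (List.mem_cons_self ..)
  have h3 := erz_nonneg h.tail h'.tail
  have a1 : 0 ≤ D := h1.1
  have a2 : 0 ≤ F := h1.2
  have a3 : 0 ≤ D' := h2.1
  have a4 : 0 ≤ F' := h2.2
  simp only [erz]
  split_ifs
  · exact le_rfl
  · exact le_rfl
  · have : 0 ≤ (D * F' + F * D') / 10 + F * F' / 4 := by positivity
    linarith

theorem erz_head {p q : ℝ × ℝ} {l l' : List (ℝ × ℝ)} (h : 0 ≤ p.1) (h' : 0 ≤ q.1)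
    (g : 1 ≤ p.2) (g' : 1 ≤ q.2) : erz (p :: l) (q :: l') =
      (p.1 * q.2 + p.2 * q.1) / 10 + p.2 * q.2 / 4 + 2 * erz l l' := by
  obtain ⟨D, F⟩ := p
  obtain ⟨D', F'⟩ := q
  have a1 : 0 ≤ D := h
  have a2 : 1 ≤ F := g
  have a3 : 0 ≤ D' := h'
  have a4 : 1 ≤ F' := g'
  simp only [erz]
  rw [if_neg (by intro hh; linarith), if_neg (by intro hh; linarith)]

/-! ### more laws -/

/-- THE LAWS with those which the next direction needs -/
structure AOKn (c : ℝ) (D : ℕ) {α : Type} (lf : Mch α) (A : Alg α) : Prop extends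
    AOKc c D lf A where
  evc : ∀ (x : α) {t t' : ℕ → ℝ}, (∀ j < D, t j = t' j) → lf.ev x t = lf.ev x t'
  gbd : ∀ {x : α}, lf.vl x → lf.gd x → ∀ t, PT D t → ‖lf.ev x t‖ ≤ 2 ^ 148
  gcj : ∀ {x : α}, lf.vl x → lf.gd x → lf.gd (A.cj x)
  lvmn : ∀ {x : α} {l l' : List (ℝ × ℝ)}, lf.LV x l → LE2 l l' → lf.LV x l'
  lvln : ∀ {x y : α} {l l' : List (ℝ × ℝ)}, lf.LV x l → lf.LV y l' → l.length = l'.length

theorem AOKn.mono {c d : ℝ} {D : ℕ} {α : Type} {lf : Mch α} {A : Alg α} (h : AOKn c D lf A)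
    (hcd : c ≤ d) : AOKn d D lf A := by
  have h1 := h.toAOKc.mono hcd
  exact { h1 with evc := h.evc, gbd := h.gbd, gcj := h.gcj, lvmn := h.lvmn, lvln := h.lvln }

/-! ### the machine -/

variable {α : Type} {c : ℝ} {D : ℕ} {lf : Mch α} {A : Alg α} {t : ℕ → ℝ}

/-- not a constant in the new direction -/
def isq : N3 α → Prop
  | .k _ => False
  | .q _ _ _ => True

/-- the bounds of the variation, the new direction first -/
def LVN (D : ℕ) (lf : Mch α) (x : N3 α) : List (ℝ × ℝ) → Prop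
  | [] => False
  | p :: l => 0 ≤ p.1 ∧ 0 ≤ p.2 ∧ (isq x → 1 ≤ p.2) ∧
      (∀ t, PT D t → ‖lf.ev (c3 x 2) t - lf.ev (c3 x 0) t‖ ≤ p.1) ∧
      (∀ t, PT D t → ‖lf.ev (c3 x 1) t - (lf.ev (c3 x 0) t + lf.ev (c3 x 2) t) / 2‖ ≤ p.2) ∧
      ∀ i, lf.LV (c3 x i) l

/-- THE MACHINE WITH ONE MORE DIRECTION -/
def nM (D : ℕ) (lf : Mch α) : Mch (N3 α) where
  ev x t := avg (bt (t D)) (fun i => lf.ev (c3 x i) t)
  gd x := ∀ i, lf.gd (c3 x i)
  vl x := ∀ i, lf.vl (c3 x i)
  LV x l := LVN D lf x l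

theorem PT.dn (h : PT (D + 1) t) : PT D t :=
  ⟨fun j hj => h.h0 j (by omega), fun j hj => h.h1 j (by omega), by have := h.hD; omega⟩

theorem PT.wb (h : PT (D + 1) t) : Wts (bt (t D)) :=
  Wts.bt (h.h0 D (by omega)) (h.h1 D (by omega))

theorem bt_sum (s : ℝ) : ∑ i, bt s i = 1 := by
  rw [Fin.sum_univ_three]
  show (1 - s) ^ 2 + 2 * s * (1 - s) + s ^ 2 = 1
  ring

theorem avg_btc (s : ℝ) (z : ℂ) : avg (bt s) (fun _ => z) = z := by
  unfold avg
  rw [← Finset.sum_mul, ← Complex.ofReal_sum, bt_sum, Complex.ofReal_one, one_mul]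

/-! ### the components of the operations -/

theorem c3_mul (A : Alg α) {x y : N3 α} {i : Fin 3} (hi : i ≠ 1) :
    c3 (mulN A x y) i = A.mul (c3 x i) (c3 y i) := by
  cases x <;> cases y <;> fin_cases i <;> first | rfl | exact absurd rfl hi

theorem c3_mulk (A : Alg α) {x y : N3 α} (h : ¬ (isq x ∧ isq y)) (i : Fin 3) :
    c3 (mulN A x y) i = A.mul (c3 x i) (c3 y i) := by
  cases x with
  | k x => cases y <;> fin_cases i <;> rfl
  | q a c b =>
    cases y with
    | k y => fin_cases i <;> rfl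
    | q a' c' b' => exact absurd ⟨trivial, trivial⟩ h

theorem nb_c3 (A : Alg α) (x : N3 α) (i : Fin 3) : A.nb (c3 x i) ≤ nbN A x := by
  cases x with
  | k a => exact le_rfl
  | q a c b =>
    show A.nb (c3 (N3.q a c b) i) ≤ mx (A.nb a) (mx (A.nb c) (A.nb b))
    have h1 : ((A.nb a : ℕ) : ℝ) ≤ (mx (A.nb a) (mx (A.nb c) (A.nb b)) : ℕ) := mx_l _ _
    have h2 : ((mx (A.nb c) (A.nb b) : ℕ) : ℝ) ≤ (mx (A.nb a) (mx (A.nb c) (A.nb b)) : ℕ) :=
      mx_r _ _
    have h3 : ((A.nb c : ℕ) : ℝ) ≤ (mx (A.nb c) (A.nb b) : ℕ) := mx_l _ _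
    have h4 : ((A.nb b : ℕ) : ℝ) ≤ (mx (A.nb c) (A.nb b) : ℕ) := mx_r _ _
    fin_cases i
    · exact_mod_cast h1
    · exact_mod_cast h3.trans h2
    · exact_mod_cast h4.trans h2

theorem dfN_k (A : Alg α) (x : α) : (dfN A (N3.k x)).map rl = (0, 0) :: (A.df x).map rl := by
  show (((nat_lit 0 : ℕ) : ℝ), ((nat_lit 0 : ℕ) : ℝ)) :: (A.df x).map rl = _
  norm_num

theorem mxL_len2 : ∀ {l l' : List DF}, l.length = l'.length → (mxL l l').length = l.length
  | [], l', _ => rfl
  | x :: l, [], h => by cases h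
  | x :: l, y :: l', h => by
    show ((⟨mx x.D y.D, mx x.F y.F⟩ : DF) :: mxL l l').length = _
    rw [List.length_cons, mxL_len2 (by simpa using h)]
    rfl

theorem LE2.len {l l' : List (ℝ × ℝ)} (h : LE2 l l') : l.length = l'.length := h.length_eq

/-! ### validity of the operations -/

theorem nv_add (h : AOKn c D lf A) {x y : N3 α} (hx : (nM D lf).vl x) (hy : (nM D lf).vl y) :
    (nM D lf).vl (bi A.add x y) := fun i => by
  rw [c3_bi]
  exact h.vadd (hx i) (hy i)

theorem nv_sub (h : AOKn c D lf A) {x y : N3 α} (hx : (nM D lf).vl x) (hy : (nM D lf).vl y) :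
    (nM D lf).vl (bi A.sub x y) := fun i => by
  rw [c3_bi]
  exact h.vsub (hx i) (hy i)

theorem nv_mul (h : AOKn c D lf A) {x y : N3 α} (hx : (nM D lf).vl x) (hy : (nM D lf).vl y) :
    (nM D lf).vl (mulN A x y) := fun i => by
  by_cases hi : i = 1
  · subst hi
    cases x with
    | k x =>
      cases y with
      | k y => exact h.vmul (hx 1) (hy 1)
      | q a' c' b' => exact h.vmul (hx 1) (hy 1)
    | q a c b =>
      cases y with
      | k y => exact h.vmul (hx 1) (hy 1)
      | q a' c' b' =>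
        show lf.vl (A.sub (A.mul c c') (A.q4 (A.mul (A.sub b a) (A.sub b' a'))))
        exact h.vsub (h.vmul (hx 1) (hy 1)) (h.vq4 (h.vmul (h.vsub (hx 2) (hx 0))
          (h.vsub (hy 2) (hy 0))))
  · rw [c3_mul A hi]
    exact h.vmul (hx i) (hy i)

theorem nv_inv (h : AOKn c D lf A) {x : N3 α} (hx : (nM D lf).vl x) :
    (nM D lf).vl (invN A x) := fun i => by
  cases x with
  | k x => exact h.vinv (hx i)
  | q a c b =>
    show lf.vl (c3 (N3.q (A.inv a) (A.mul (A.add (A.cs one1) (A.q4 (A.mul (A.sub b a)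
      (A.sub (A.inv b) (A.inv a))))) (A.inv c)) (A.inv b)) i)
    have ha : lf.vl a := hx 0
    have hc : lf.vl c := hx 1
    have hb : lf.vl b := hx 2
    fin_cases i
    · exact h.vinv ha
    · exact h.vmul (h.vadd (h.vcs _) (h.vq4 (h.vmul (h.vsub hb ha)
        (h.vsub (h.vinv hb) (h.vinv ha))))) (h.vinv hc)
    · exact h.vinv hb

/-! ### products -/

/-- the error of the middle control -/
theorem mid_err {f0 f1 f2 g0 g1 g2 P Q R T : ℂ} {c ε : ℝ}
    (h1 : ‖P - f1 * g1 / UU‖ ≤ c + ε) (h2 : ‖Q - (f2 - f0) * (g2 - g0) / UU‖ ≤ c + 4 * ε)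
    (h3 : ‖R - Q / 4‖ ≤ 3 / 2) (hT : T = P - R) :
    ‖T - (f1 * g1 - (f2 - f0) * (g2 - g0) / 4) / UU‖ ≤ 5 / 4 * c + 3 / 2 + 2 * ε := by
  subst hT
  have e : P - R - (f1 * g1 - (f2 - f0) * (g2 - g0) / 4) / UU =
      (P - f1 * g1 / UU) - ((R - Q / 4) + (Q - (f2 - f0) * (g2 - g0) / UU) / 4) := by ring
  rw [e]
  have h4 : ‖(Q - (f2 - f0) * (g2 - g0) / UU) / 4‖ ≤ (c + 4 * ε) / 4 := by
    rw [norm_div]
    have : ‖(4 : ℂ)‖ = 4 := by norm_num
    rw [this]
    linarith
  have h5 := norm_sub_le (P - f1 * g1 / UU) ((R - Q / 4) + (Q - (f2 - f0) * (g2 - g0) / UU) / 4)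
  have h6 := norm_add_le (R - Q / 4) ((Q - (f2 - f0) * (g2 - g0) / UU) / 4)
  linarith

theorem erz_tw' (l l' : List (ℝ × ℝ)) : erz (l.map tw) (l'.map tw) = 4 * erz l l' :=
  Pool.Agent.Helper90.KMT.erz_tw l l'

/-- THE PRODUCT -/
theorem n_mul (h : AOKn c D lf A) (hc : 0 ≤ c) {x y : N3 α} (hx : (nM D lf).vl x)
    (hy : (nM D lf).vl y) (hg : (nM D lf).gd (mulN A x y)) : (nM D lf).gd x ∧ (nM D lf).gd y ∧
    ∀ t l l', PT (D + 1) t → (nM D lf).LV x l → (nM D lf).LV y l' →
      ‖(nM D lf).ev (mulN A x y) t - (nM D lf).ev x t * (nM D lf).ev y t / UU‖ ≤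
        (9 / 8 * c + 3 / 4) + erz l l' / UU := by
  have hU := UU_pos
  by_cases hq : isq x ∧ isq y
  · -- two quadratic functions
    obtain ⟨qx, qy⟩ := hq
    cases x with
    | k x => exact qx.elim
    | q a m b =>
      cases y with
      | k y => exact qy.elim
      | q a' m' b' =>
        have va : lf.vl a := hx 0
        have vm : lf.vl m := hx 1
        have vb : lf.vl b := hx 2
        have va' : lf.vl a' := hy 0
        have vm' : lf.vl m' := hy 1
        have vb' : lf.vl b' := hy 2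
        have g0 : lf.gd (A.mul a a') := hg 0
        have g1 : lf.gd (A.sub (A.mul m m') (A.q4 (A.mul (A.sub b a) (A.sub b' a')))) := hg 1
        have g2 : lf.gd (A.mul b b') := hg 2
        have v1 := h.vmul vm vm'
        have v2 := h.vsub vb va
        have v3 := h.vsub vb' va'
        have v4 := h.vmul v2 v3
        have v5 := h.vq4 v4
        obtain ⟨k1, k2, k3⟩ := h.sub v1 v5 g1
        obtain ⟨k4, k5⟩ := h.q4 v4 k2
        obtain ⟨k6, k7, k8⟩ := h.mul v2 v3 k4
        obtain ⟨-, -, k9⟩ := h.sub vb va k6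
        obtain ⟨-, -, k10⟩ := h.sub vb' va' k7
        obtain ⟨ga, ga', k11⟩ := h.mul va va' g0
        obtain ⟨gm, gm', k12⟩ := h.mul vm vm' k1
        obtain ⟨gb, gb', k13⟩ := h.mul vb vb' g2
        refine ⟨fun i => ?_, fun i => ?_, fun t l l' hP hl hl' => ?_⟩
        · fin_cases i
          · exact ga
          · exact gm
          · exact gb
        · fin_cases i
          · exact ga'
          · exact gm'
          · exact gb'
        · cases l with
          | nil => exact hl.elim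
          | cons p l =>
            cases l' with
            | nil => exact hl'.elim
            | cons q l' =>
              obtain ⟨p1, p2, p3, p4, p5, p6⟩ := hl
              obtain ⟨q1, q2, q3, q4, q5, q6⟩ := hl'
              have hP0 := PT.dn hP
              rw [erz_head p1 q1 (p3 trivial) (q3 trivial)]
              have e0 := k11 t l l' hP0 (p6 0) (q6 0)
              have e1 := k12 t l l' hP0 (p6 1) (q6 1)
              have e2 := k13 t l l' hP0 (p6 2) (q6 2)
              have e3 := k8 t (l.map tw) (l'.map tw) hP0 (h.lvsub vb va k6 (p6 2) (p6 0))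
                (h.lvsub vb' va' k7 (q6 2) (q6 0))
              rw [k9 t, k10 t, erz_tw'] at e3
              have e4 := k5 t hP0
              have nn : 0 ≤ erz l l' := erz_nonneg (h.lvnn (p6 0)) (h.lvnn (q6 0))
              have nn' : 0 ≤ erz l l' / UU := div_nonneg nn hU.le
              have e5 := mid_err (ε := erz l l' / UU) e1
                (e3.trans (le_of_eq (by ring))) e4 (k3 t)
              have t0 := hP.h0 D (by omega)
              have t1 := hP.h1 D (by omega)
              have b1 := bt_err t0 t1 (fun i => lf.ev (c3 (N3.q a m b) i) t)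
                (fun i => lf.ev (c3 (N3.q a' m' b') i) t) (p4 t hP0) (q4 t hP0) (p5 t hP0)
                (q5 t hP0)
              show ‖avg (bt (t D)) (fun i => lf.ev (c3 (mulN A (N3.q a m b) (N3.q a' m' b')) i) t) -
                avg (bt (t D)) (fun i => lf.ev (c3 (N3.q a m b) i) t) *
                  avg (bt (t D)) (fun i => lf.ev (c3 (N3.q a' m' b') i) t) / UU‖ ≤ _
              set f : Fin 3 → ℂ := fun i => lf.ev (c3 (N3.q a m b) i) t with hf
              set g : Fin 3 → ℂ := fun i => lf.ev (c3 (N3.q a' m' b') i) t with hgg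
              set w : Fin 3 → ℂ := fun i => lf.ev (c3 (mulN A (N3.q a m b) (N3.q a' m' b')) i) t
                with hw
              set z : Fin 3 → ℂ := fun i => if i = 1 then f i * g i - (f 2 - f 0) * (g 2 - g 0) / 4
                else f i * g i with hz
              have w0 : ‖w 0 - z 0 / UU‖ ≤ c + erz l l' / UU := e0
              have w1 : ‖w 1 - z 1 / UU‖ ≤ 5 / 4 * c + 3 / 2 + 2 * (erz l l' / UU) := e5
              have w2 : ‖w 2 - z 2 / UU‖ ≤ c + erz l l' / UU := e2
              have s0 : (0 : ℝ) ≤ bt (t D) 0 := (PT.wb hP).nonneg 0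
              have s1 : (0 : ℝ) ≤ bt (t D) 1 := (PT.wb hP).nonneg 1
              have s2 : (0 : ℝ) ≤ bt (t D) 2 := (PT.wb hP).nonneg 2
              have s3 : bt (t D) 0 + bt (t D) 1 + bt (t D) 2 = 1 := by
                have := bt_sum (t D)
                rwa [Fin.sum_univ_three] at this
              have s4 : bt (t D) 1 ≤ 1 / 2 := by
                show 2 * t D * (1 - t D) ≤ 1 / 2
                nlinarith [sq_nonneg (t D - 1 / 2)]
              have e6 : avg (bt (t D)) w - avg (bt (t D)) f * avg (bt (t D)) g / UU =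
                  (avg (bt (t D)) z - avg (bt (t D)) f * avg (bt (t D)) g) / UU +
                  (((bt (t D) 0 : ℝ) : ℂ) * (w 0 - z 0 / UU) +
                    ((bt (t D) 1 : ℝ) : ℂ) * (w 1 - z 1 / UU) +
                    ((bt (t D) 2 : ℝ) : ℂ) * (w 2 - z 2 / UU)) := by
                have a1 : avg (bt (t D)) w = ((bt (t D) 0 : ℝ) : ℂ) * w 0 +
                    ((bt (t D) 1 : ℝ) : ℂ) * w 1 + ((bt (t D) 2 : ℝ) : ℂ) * w 2 := by
                  unfold avg
                  rw [Fin.sum_univ_three]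
                have a2 : avg (bt (t D)) z = ((bt (t D) 0 : ℝ) : ℂ) * z 0 +
                    ((bt (t D) 1 : ℝ) : ℂ) * z 1 + ((bt (t D) 2 : ℝ) : ℂ) * z 2 := by
                  unfold avg
                  rw [Fin.sum_univ_three]
                rw [a1, a2]
                ring
              rw [e6]
              have n1 : ‖(avg (bt (t D)) z - avg (bt (t D)) f * avg (bt (t D)) g) / UU‖ ≤
                  ((p.1 * q.2 + p.2 * q.1) / 10 + p.2 * q.2 / 4) / UU := by
                rw [norm_div, norm_UU]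
                exact div_le_div_of_nonneg_right b1 hU.le
              have n2 : ∀ i : Fin 3, ∀ B : ℝ, ‖w i - z i / UU‖ ≤ B →
                  ‖((bt (t D) i : ℝ) : ℂ) * (w i - z i / UU)‖ ≤ bt (t D) i * B := by
                intro i B hB
                rw [norm_mul, Complex.norm_real, Real.norm_of_nonneg ((PT.wb hP).nonneg i)]
                exact mul_le_mul_of_nonneg_left hB ((PT.wb hP).nonneg i)
              have m0 := n2 0 _ w0
              have m1 := n2 1 _ w1
              have m2 := n2 2 _ w2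
              refine (norm_add_le _ _).trans ?_
              refine (add_le_add n1 ((norm_add_le _ _).trans (add_le_add ((norm_add_le _ _).trans
                (add_le_add m0 m1)) m2))).trans ?_
              have r1 : bt (t D) 0 * (c + erz l l' / UU) +
                  bt (t D) 1 * (5 / 4 * c + 3 / 2 + 2 * (erz l l' / UU)) +
                  bt (t D) 2 * (c + erz l l' / UU) =
                  (c + erz l l' / UU) + bt (t D) 1 * (1 / 4 * c + 3 / 2 + erz l l' / UU) := by
                have : bt (t D) 0 = 1 - bt (t D) 1 - bt (t D) 2 := by linarith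
                rw [this]
                ring
              rw [r1]
              have r2 : bt (t D) 1 * (1 / 4 * c + 3 / 2 + erz l l' / UU) ≤
                  1 / 2 * (1 / 4 * c + 3 / 2 + erz l l' / UU) :=
                mul_le_mul_of_nonneg_right s4 (by positivity)
              have r3 : ((p.1 * q.2 + p.2 * q.1) / 10 + p.2 * q.2 / 4 + 2 * erz l l') / UU =
                  ((p.1 * q.2 + p.2 * q.1) / 10 + p.2 * q.2 / 4) / UU + 2 * (erz l l' / UU) := by
                ring
              rw [r3]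
              linarith
  · -- one of the factors is constant in the new direction
    have hcm := c3_mulk A hq
    have hgi : ∀ i, lf.gd (A.mul (c3 x i) (c3 y i)) := fun i => by
      rw [← hcm]
      exact hg i
    refine ⟨fun i => (h.mul (hx i) (hy i) (hgi i)).1, fun i => (h.mul (hx i) (hy i) (hgi i)).2.1,
      fun t l l' hP hl hl' => ?_⟩
    cases l with
    | nil => exact hl.elim
    | cons p l =>
      cases l' with
      | nil => exact hl'.elim
      | cons q l' =>
        obtain ⟨p1, p2, p3, p4, p5, p6⟩ := hl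
        obtain ⟨q1, q2, q3, q4, q5, q6⟩ := hl'
        have hP0 := PT.dn hP
        have n1 : NN (p :: l) := by
          intro z hz
          rcases List.mem_cons.1 hz with rfl | hz
          · exact ⟨p1, p2⟩
          · exact h.lvnn (p6 0) z hz
        have n2 : NN (q :: l') := by
          intro z hz
          rcases List.mem_cons.1 hz with rfl | hz
          · exact ⟨q1, q2⟩
          · exact h.lvnn (q6 0) z hz
        have e1 := erz_cons n1 n2
        have e2 := div_le_div_of_nonneg_right e1 hU.le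
        have e3 : ∀ i, ‖lf.ev (c3 (mulN A x y) i) t - lf.ev (c3 x i) t * lf.ev (c3 y i) t / UU‖ ≤
            c + erz l l' / UU := fun i => by
          rw [hcm]
          exact (h.mul (hx i) (hy i) (hgi i)).2.2 t l l' hP0 (p6 i) (q6 i)
        show ‖avg (bt (t D)) (fun i => lf.ev (c3 (mulN A x y) i) t) -
          avg (bt (t D)) (fun i => lf.ev (c3 x i) t) *
            avg (bt (t D)) (fun i => lf.ev (c3 y i) t) / UU‖ ≤ _
        have e4 : avg (bt (t D)) (fun i => lf.ev (c3 x i) t) *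
            avg (bt (t D)) (fun i => lf.ev (c3 y i) t) / UU =
            avg (bt (t D)) (fun i => lf.ev (c3 x i) t * lf.ev (c3 y i) t / UU) := by
          by_cases hx' : isq x
          · cases y with
            | q a' m' b' => exact absurd ⟨hx', trivial⟩ hq
            | k y =>
              show avg (bt (t D)) (fun i => lf.ev (c3 x i) t) *
                avg (bt (t D)) (fun _ => lf.ev y t) / UU =
                avg (bt (t D)) (fun i => lf.ev (c3 x i) t * lf.ev y t / UU)
              rw [avg_btc]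
              unfold avg
              rw [Fin.sum_univ_three, Fin.sum_univ_three]
              ring
          · cases x with
            | q a m b => exact absurd trivial hx'
            | k x =>
              show avg (bt (t D)) (fun _ => lf.ev x t) *
                avg (bt (t D)) (fun i => lf.ev (c3 y i) t) / UU =
                avg (bt (t D)) (fun i => lf.ev x t * lf.ev (c3 y i) t / UU)
              rw [avg_btc]
              unfold avg
              rw [Fin.sum_univ_three, Fin.sum_univ_three]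
              ring
        rw [e4, ← avg_sub]
        refine (norm_avg_le (PT.wb hP) e3).trans ?_
        linarith

/-! ### the bounds of the variation -/

theorem n_lv (h : AOKn c D lf A) {x : N3 α} (hx : (nM D lf).vl x) (hg : (nM D lf).gd x) :
    (nM D lf).LV x ((dfN A x).map rl) := by
  cases x with
  | k x =>
    rw [dfN_k]
    refine ⟨le_rfl, le_rfl, fun hq => hq.elim, fun t _ => ?_, fun t _ => ?_, fun i => ?_⟩
    · show ‖lf.ev x t - lf.ev x t‖ ≤ 0
      rw [sub_self, norm_zero]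
    · show ‖lf.ev x t - (lf.ev x t + lf.ev x t) / 2‖ ≤ 0
      have : lf.ev x t - (lf.ev x t + lf.ev x t) / 2 = 0 := by ring
      rw [this, norm_zero]
    · exact h.lv (hx 0) (hg 0)
  | q a m b =>
    have va : lf.vl a := hx 0
    have vm : lf.vl m := hx 1
    have vb : lf.vl b := hx 2
    have ga : lf.gd a := hg 0
    have gm : lf.gd m := hg 1
    have gb : lf.gd b := hg 2
    have l0 := h.lv va ga
    have l1 := h.lv vm gm
    have l2 := h.lv vb gb
    have e1 : (A.df a).length = (A.df m).length := by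
      have := h.lvln l0 l1
      rwa [List.length_map, List.length_map] at this
    have e2 : (A.df m).length = (A.df b).length := by
      have := h.lvln l1 l2
      rwa [List.length_map, List.length_map] at this
    have e3 : (A.df a).length = (mxL (A.df m) (A.df b)).length := by rw [mxL_len2 e2, e1]
    have p3 : (nat_lit 2 : ℕ) = 2 := rfl
    refine ⟨Nat.cast_nonneg _, Nat.cast_nonneg _, fun _ => ?_, fun t hP => ?_, fun t hP => ?_,
      fun i => ?_⟩
    · show (1 : ℝ) ≤ ((Nat.add (Nat.div (A.nb (A.sub (A.add m m) (A.add a b))) (nat_lit 2))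
        (nat_lit 1) : ℕ) : ℝ)
      rw [c_add]
      have h0 : (0 : ℝ) ≤ ((Nat.div (A.nb (A.sub (A.add m m) (A.add a b))) (nat_lit 2) : ℕ) : ℝ) :=
        Nat.cast_nonneg _
      have g1 : ((nat_lit 1 : ℕ) : ℝ) = 1 := by norm_num
      rw [g1]
      linarith
    · show ‖lf.ev b t - lf.ev a t‖ ≤ ((A.nb (A.sub b a) : ℕ) : ℝ)
      have vs := h.vsub vb va
      by_cases hgs : lf.gd (A.sub b a)
      · have h2 := h.mag vs hgs t hP
        rw [(h.sub vb va hgs).2.2 t] at h2
        exact h2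
      · have h2 : 2 ^ 150 ≤ A.nb (A.sub b a) := by
          by_contra hlt
          exact hgs (h.nbg vs (Nat.lt_of_not_le hlt))
        have h3 : ((2 : ℝ) ^ 150) ≤ ((A.nb (A.sub b a) : ℕ) : ℝ) := by exact_mod_cast h2
        have h4 := h.gbd vb gb t hP
        have h5 := h.gbd va ga t hP
        have h6 := norm_sub_le (lf.ev b t) (lf.ev a t)
        have h7 : (2 : ℝ) ^ 148 + 2 ^ 148 ≤ 2 ^ 150 := by norm_num
        linarith
    · show ‖lf.ev m t - (lf.ev a t + lf.ev b t) / 2‖ ≤ ((Nat.add (Nat.div (A.nb (A.sub (A.add m m)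
        (A.add a b))) (nat_lit 2)) (nat_lit 1) : ℕ) : ℝ)
      have v1 := h.vadd vm vm
      have v2 := h.vadd va vb
      have vs := h.vsub v1 v2
      have h8 := c_div2 (A.nb (A.sub (A.add m m) (A.add a b)))
      rw [c_add]
      have g1 : ((nat_lit 1 : ℕ) : ℝ) = 1 := by norm_num
      rw [g1]
      by_cases hgs : lf.gd (A.sub (A.add m m) (A.add a b))
      · have h2 := h.mag vs hgs t hP
        obtain ⟨k1, k2, k3⟩ := h.sub v1 v2 hgs
        rw [k3 t, (h.add vm vm k1).2.2 t, (h.add va vb k2).2.2 t] at h2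
        have e : lf.ev m t - (lf.ev a t + lf.ev b t) / 2 =
            (lf.ev m t + lf.ev m t - (lf.ev a t + lf.ev b t)) / 2 := by ring
        rw [e, norm_div]
        have g2 : ‖(2 : ℂ)‖ = 2 := by norm_num
        rw [g2]
        linarith
      · have h2 : 2 ^ 150 ≤ A.nb (A.sub (A.add m m) (A.add a b)) := by
          by_contra hlt
          exact hgs (h.nbg vs (Nat.lt_of_not_le hlt))
        have h3 : ((2 : ℝ) ^ 150) ≤ ((A.nb (A.sub (A.add m m) (A.add a b)) : ℕ) : ℝ) := by
          exact_mod_cast h2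
        have h4 := h.gbd vb gb t hP
        have h5 := h.gbd va ga t hP
        have h6 := h.gbd vm gm t hP
        have h7 : ‖lf.ev m t - (lf.ev a t + lf.ev b t) / 2‖ ≤ 2 ^ 148 + 2 ^ 148 := by
          refine (norm_sub_le _ _).trans (add_le_add h6 ?_)
          rw [norm_div]
          have g2 : ‖(2 : ℂ)‖ = 2 := by norm_num
          rw [g2]
          have h9 := norm_add_le (lf.ev a t) (lf.ev b t)
          linarith
        have h9 : (2 : ℝ) ^ 148 + 2 ^ 148 ≤ 2 ^ 150 / 2 := by norm_num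
        linarith
    · show lf.LV (c3 (N3.q a m b) i) ((mxL (A.df a) (mxL (A.df m) (A.df b))).map rl)
      have r0 : LE2 ((A.df a).map rl) ((mxL (A.df a) (mxL (A.df m) (A.df b))).map rl) :=
        Pool.Agent.Helper90.KMT.mxL_l e3
      have r1 : LE2 ((mxL (A.df m) (A.df b)).map rl)
          ((mxL (A.df a) (mxL (A.df m) (A.df b))).map rl) := Pool.Agent.Helper90.KMT.mxL_r e3
      have r2 : LE2 ((A.df m).map rl) ((mxL (A.df m) (A.df b)).map rl) :=
        Pool.Agent.Helper90.KMT.mxL_l e2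
      have r3 : LE2 ((A.df b).map rl) ((mxL (A.df m) (A.df b)).map rl) :=
        Pool.Agent.Helper90.KMT.mxL_r e2
      fin_cases i
      · exact h.lvmn l0 r0
      · exact h.lvmn (h.lvmn l1 r2) r1
      · exact h.lvmn (h.lvmn l2 r3) r1

theorem LVN.nn (h : AOKn c D lf A) {x : N3 α} {l : List (ℝ × ℝ)} (hl : (nM D lf).LV x l) :
    NN l := by
  cases l with
  | nil => exact hl.elim
  | cons p l =>
    obtain ⟨p1, p2, -, -, -, p6⟩ := hl
    intro z hz
    rcases List.mem_cons.1 hz with rfl | hz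
    · exact ⟨p1, p2⟩
    · exact h.lvnn (p6 0) z hz

theorem n_lvcj (h : AOKn c D lf A) {x : N3 α} {l : List (ℝ × ℝ)} (hx : (nM D lf).vl x)
    (hg : (nM D lf).gd x) (hl : (nM D lf).LV x l) : (nM D lf).LV (un A.cj x) l := by
  cases l with
  | nil => exact hl.elim
  | cons p l =>
    obtain ⟨p1, p2, p3, p4, p5, p6⟩ := hl
    have e : ∀ (i : Fin 3) (t : ℕ → ℝ), lf.ev (c3 (un A.cj x) i) t = star (lf.ev (c3 x i) t) :=
      fun i t => by
        rw [c3_un]
        exact (h.cj (hx i) (h.gcj (hx i) (hg i))).2 t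
    refine ⟨p1, p2, fun hq => p3 ?_, fun t hP => ?_, fun t hP => ?_, fun i => ?_⟩
    · cases x with
      | k x => exact hq.elim
      | q a m b => trivial
    · rw [e, e, ← star_sub, norm_star]
      exact p4 t hP
    · rw [e, e, e]
      have e2 : star (lf.ev (c3 x 1) t) - (star (lf.ev (c3 x 0) t) + star (lf.ev (c3 x 2) t)) / 2 =
          star (lf.ev (c3 x 1) t - (lf.ev (c3 x 0) t + lf.ev (c3 x 2) t) / 2) := by simp
      rw [e2, norm_star]
      exact p5 t hP
    · rw [c3_un]
      exact h.lvcj (hx i) (hg i) (p6 i)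

theorem n_lvsub (h : AOKn c D lf A) {x y : N3 α} {l : List (ℝ × ℝ)} (hx : (nM D lf).vl x)
    (hy : (nM D lf).vl y) (hg : (nM D lf).gd (bi A.sub x y)) (hl : (nM D lf).LV x l)
    (hl' : (nM D lf).LV y l) : (nM D lf).LV (bi A.sub x y) (l.map tw) := by
  cases l with
  | nil => exact hl.elim
  | cons p l =>
    obtain ⟨p1, p2, p3, p4, p5, p6⟩ := hl
    obtain ⟨-, -, q3, q4, q5, q6⟩ := hl'
    have hgi : ∀ i, lf.gd (A.sub (c3 x i) (c3 y i)) := fun i => by
      rw [← c3_bi A.sub x y i]
      exact hg i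
    have e : ∀ (i : Fin 3) (t : ℕ → ℝ), lf.ev (c3 (bi A.sub x y) i) t =
        lf.ev (c3 x i) t - lf.ev (c3 y i) t := fun i t => by
      rw [c3_bi]
      exact (h.sub (hx i) (hy i) (hgi i)).2.2 t
    show LVN D lf (bi A.sub x y) (tw p :: l.map tw)
    refine ⟨?_, ?_, fun hq => ?_, fun t hP => ?_, fun t hP => ?_, fun i => ?_⟩
    · show 0 ≤ 2 * p.1
      linarith
    · show 0 ≤ 2 * p.2
      linarith
    · show 1 ≤ 2 * p.2
      cases x with
      | q a m b =>
        have := p3 trivial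
        linarith
      | k x =>
        cases y with
        | q a m b =>
          have := q3 trivial
          linarith
        | k y => exact hq.elim
    · show _ ≤ 2 * p.1
      rw [e, e]
      have e2 : lf.ev (c3 x 2) t - lf.ev (c3 y 2) t - (lf.ev (c3 x 0) t - lf.ev (c3 y 0) t) =
          (lf.ev (c3 x 2) t - lf.ev (c3 x 0) t) - (lf.ev (c3 y 2) t - lf.ev (c3 y 0) t) := by ring
      rw [e2]
      have h1 := norm_sub_le (lf.ev (c3 x 2) t - lf.ev (c3 x 0) t)
        (lf.ev (c3 y 2) t - lf.ev (c3 y 0) t)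
      have h2 := p4 t hP
      have h3 := q4 t hP
      linarith
    · show _ ≤ 2 * p.2
      rw [e, e, e]
      have e2 : lf.ev (c3 x 1) t - lf.ev (c3 y 1) t - (lf.ev (c3 x 0) t - lf.ev (c3 y 0) t +
          (lf.ev (c3 x 2) t - lf.ev (c3 y 2) t)) / 2 =
          (lf.ev (c3 x 1) t - (lf.ev (c3 x 0) t + lf.ev (c3 x 2) t) / 2) -
          (lf.ev (c3 y 1) t - (lf.ev (c3 y 0) t + lf.ev (c3 y 2) t) / 2) := by ring
      rw [e2]
      have h1 := norm_sub_le (lf.ev (c3 x 1) t - (lf.ev (c3 x 0) t + lf.ev (c3 x 2) t) / 2)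
        (lf.ev (c3 y 1) t - (lf.ev (c3 y 0) t + lf.ev (c3 y 2) t) / 2)
      have h2 := p5 t hP
      have h3 := q5 t hP
      linarith
    · rw [c3_bi]
      exact h.lvsub (hx i) (hy i) (hgi i) (p6 i) (q6 i)

theorem n_lvmn (h : AOKn c D lf A) {x : N3 α} {l l' : List (ℝ × ℝ)} (hl : (nM D lf).LV x l)
    (hh : LE2 l l') : (nM D lf).LV x l' := by
  cases hh with
  | nil => exact hl.elim
  | @cons p q l l' hp ht =>
    obtain ⟨p1, p2, p3, p4, p5, p6⟩ := hl
    exact ⟨p1.trans hp.1, p2.trans hp.2, fun hq => (p3 hq).trans hp.2,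
      fun t hP => (p4 t hP).trans hp.1, fun t hP => (p5 t hP).trans hp.2,
      fun i => h.lvmn (p6 i) ht⟩

/-- **ONE MORE DIRECTION** -/
theorem AOKn.nx (h : AOKn c D lf A) (hc : 0 ≤ c) :
    AOKn (9 / 8 * c + 3 / 4) (D + 1) (nM D lf) (Pool.Agent.Helper86.CT.nx A) where
  vadd hx hy := nv_add h hx hy
  vsub hx hy := nv_sub h hx hy
  vmul hx hy := nv_mul h hx hy
  vq4 {x} hx := fun i => by
    show lf.vl (c3 (un A.q4 x) i)
    rw [c3_un]
    exact h.vq4 (hx i)
  vcj {x} hx := fun i => by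
    show lf.vl (c3 (un A.cj x) i)
    rw [c3_un]
    exact h.vcj (hx i)
  vcs z := fun _ => h.vcs z
  vinv hx := nv_inv h hx
  add {x y} hx hy hg := by
    have hgi : ∀ i, lf.gd (A.add (c3 x i) (c3 y i)) := fun i => by
      rw [← c3_bi A.add x y i]
      exact hg i
    refine ⟨fun i => (h.add (hx i) (hy i) (hgi i)).1, fun i => (h.add (hx i) (hy i) (hgi i)).2.1,
      fun t => ?_⟩
    show avg (bt (t D)) (fun i => lf.ev (c3 (bi A.add x y) i) t) = _
    have e : (fun i => lf.ev (c3 (bi A.add x y) i) t) =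
        fun i => lf.ev (c3 x i) t + lf.ev (c3 y i) t := by
      funext i
      rw [c3_bi]
      exact (h.add (hx i) (hy i) (hgi i)).2.2 t
    rw [e, avg_add]
    rfl
  sub {x y} hx hy hg := by
    have hgi : ∀ i, lf.gd (A.sub (c3 x i) (c3 y i)) := fun i => by
      rw [← c3_bi A.sub x y i]
      exact hg i
    refine ⟨fun i => (h.sub (hx i) (hy i) (hgi i)).1, fun i => (h.sub (hx i) (hy i) (hgi i)).2.1,
      fun t => ?_⟩
    show avg (bt (t D)) (fun i => lf.ev (c3 (bi A.sub x y) i) t) = _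
    have e : (fun i => lf.ev (c3 (bi A.sub x y) i) t) =
        fun i => lf.ev (c3 x i) t - lf.ev (c3 y i) t := by
      funext i
      rw [c3_bi]
      exact (h.sub (hx i) (hy i) (hgi i)).2.2 t
    rw [e, avg_sub]
    rfl
  mul hx hy hg := n_mul h hc hx hy hg
  q4 {x} hx hg := by
    have hgi : ∀ i, lf.gd (A.q4 (c3 x i)) := fun i => by
      rw [← c3_un A.q4 x i]
      exact hg i
    refine ⟨fun i => (h.q4 (hx i) (hgi i)).1, fun t hP => ?_⟩
    show ‖avg (bt (t D)) (fun i => lf.ev (c3 (un A.q4 x) i) t) -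
      avg (bt (t D)) (fun i => lf.ev (c3 x i) t) / 4‖ ≤ 3 / 2
    have e : avg (bt (t D)) (fun i => lf.ev (c3 x i) t) / 4 =
        avg (bt (t D)) (fun i => lf.ev (c3 x i) t / 4) := by
      unfold avg
      rw [Fin.sum_univ_three, Fin.sum_univ_three]
      ring
    rw [e, ← avg_sub]
    refine norm_avg_le (PT.wb hP) fun i => ?_
    rw [c3_un]
    exact (h.q4 (hx i) (hgi i)).2 t (PT.dn hP)
  cj {x} hx hg := by
    have hgi : ∀ i, lf.gd (A.cj (c3 x i)) := fun i => by
      rw [← c3_un A.cj x i]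
      exact hg i
    refine ⟨fun i => (h.cj (hx i) (hgi i)).1, fun t => ?_⟩
    show avg (bt (t D)) (fun i => lf.ev (c3 (un A.cj x) i) t) = _
    have e : (fun i => lf.ev (c3 (un A.cj x) i) t) = fun i => star (lf.ev (c3 x i) t) := by
      funext i
      rw [c3_un]
      exact (h.cj (hx i) (hgi i)).2 t
    rw [e, avg_star]
    rfl
  cs z hg t := by
    show avg (bt (t D)) (fun _ => lf.ev (A.cs z) t) = _
    rw [avg_btc]
    exact h.cs z (hg 0) t
  mag {x} hx hg t hP := by
    show ‖avg (bt (t D)) (fun i => lf.ev (c3 x i) t)‖ ≤ ((nbN A x : ℕ) : ℝ)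
    refine norm_avg_le (PT.wb hP) fun i => (h.mag (hx i) (hg i) t (PT.dn hP)).trans ?_
    exact_mod_cast nb_c3 A x i
  lv hx hg := n_lv h hx hg
  lvcj hx hg hl := n_lvcj h hx hg hl
  lvsub hx hy hg hl hl' := n_lvsub h hx hy hg hl hl'
  lvnn hl := LVN.nn h hl
  nbg {x} hx hn := fun i => h.nbg (hx i) ((nb_c3 A x i).trans_lt hn)
  cng {s} n hs hn := fun i => by
    show lf.gd (c3 (bi A.sub s (N3.k (A.cs ⟨Z.p n, Z.p (nat_lit 0)⟩))) i)
    rw [c3_bi]
    refine h.cng n (hs i) ?_
    have h1 := nb_c3 A (bi A.sub s (N3.k (A.cs ⟨Z.p n, Z.p (nat_lit 0)⟩))) i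
    rw [c3_bi] at h1
    exact h1.trans hn
  csb n hg := h.csb n (hg 0)
  evc x t t' ht := by
    show avg (bt (t D)) (fun i => lf.ev (c3 x i) t) = avg (bt (t' D)) (fun i => lf.ev (c3 x i) t')
    rw [ht D (by omega)]
    have e : (fun i => lf.ev (c3 x i) t) = fun i => lf.ev (c3 x i) t' := by
      funext i
      exact h.evc (c3 x i) fun j hj => ht j (by omega)
    rw [e]
  gbd {x} hx hg t hP := by
    show ‖avg (bt (t D)) (fun i => lf.ev (c3 x i) t)‖ ≤ 2 ^ 148
    exact norm_avg_le (PT.wb hP) fun i => h.gbd (hx i) (hg i) t (PT.dn hP)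
  gcj {x} hx hg := fun i => by
    show lf.gd (c3 (un A.cj x) i)
    rw [c3_un]
    exact h.gcj (hx i) (hg i)
  lvmn hl hh := n_lvmn h hl hh
  lvln {x y l l'} hl hl' := by
    cases l with
    | nil => exact hl.elim
    | cons p l =>
      cases l' with
      | nil => exact hl'.elim
      | cons q l' =>
        rw [List.length_cons, List.length_cons, h.lvln (hl.2.2.2.2.2 0) (hl'.2.2.2.2.2 0)]

/-- FROM THE MACHINE OF DEPTH `D` TO DEPTH `D + 1` -/
theorem AOK_nx (h : AOKn 2 D lf A) : AOK (D + 1) (nM D lf) (Pool.Agent.Helper86.CT.nx A) :=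
  (h.nx (by norm_num)).toAOKc.mono (by norm_num)

/-! ### models of depth `D` as models of depth `D + 1` -/

theorem PT.tu' (h : PT D t) (hD : D + 1 ≤ 4) {u : ℝ} (h0 : 0 ≤ u) (h1 : u ≤ 1) :
    PT (D + 1) (tu D t u) := Pool.Agent.Helper91.BX.PT.tu h hD h0 h1

theorem ev_up (h : AOKn c D lf A) (x : α) (u : ℝ) :
    (nM D lf).ev (N3.k x) (tu D t u) = lf.ev x t := by
  show avg (bt (tu D t u D)) (fun _ => lf.ev x (tu D t u)) = _
  rw [avg_btc]
  exact h.evc x fun j hj => tu_lt hj u

theorem VT_up {M : Mo α} (h : VT D lf M) : VT (D + 1) (nM D lf) (upM M) := by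
  refine ⟨fun _ => h.vl, fun hg t hP => ?_, fun hg => ?_⟩
  · show ‖avg (bt (t D)) (fun _ => lf.ev M.v t)‖ ≤ _
    rw [avg_btc]
    exact h.bd (hg 0) t (PT.dn hP)
  · show LVN D lf (N3.k M.v) ((((nat_lit 0 : ℕ) : ℝ), ((nat_lit 0 : ℕ) : ℝ)) :: M.l.map rl)
    have e : ((nat_lit 0 : ℕ) : ℝ) = 0 := by norm_num
    rw [e]
    refine ⟨le_rfl, le_rfl, fun hq => hq.elim, fun t _ => ?_, fun t _ => ?_, fun i => h.lv (hg 0)⟩
    · show ‖lf.ev M.v t - lf.ev M.v t‖ ≤ 0
      rw [sub_self, norm_zero]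
    · show ‖lf.ev M.v t - (lf.ev M.v t + lf.ev M.v t) / 2‖ ≤ 0
      have : lf.ev M.v t - (lf.ev M.v t + lf.ev M.v t) / 2 = 0 := by ring
      rw [this, norm_zero]

/-- **A MODEL OF DEPTH `D` IS A MODEL OF DEPTH `D + 1`** -/
theorem TOK.up (hA : AOKn c D lf A) {f : ℂ} {M : Mo α} (h : TOK D lf t f M) (u : ℝ) :
    TOK (D + 1) (nM D lf) (tu D t u) f (upM M) := by
  refine ⟨VT_up h.val, fun hg => ?_⟩
  show ‖(UU : ℂ) * f - (nM D lf).ev (N3.k M.v) (tu D t u)‖ ≤ (M.r : ℝ)
  rw [ev_up hA]
  exact h.mod (hg 0)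

end Pool.Agent.Helper91.TMK
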