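import Pool.Agent.Helper84.TM.N
import Pool.Agent.Helper91.TM.V

/-!
Taylor model machine (MP_c75db0, star frame): ONE MORE DIRECTION, part 2: vectors and matrices of
models one level higher, the parameter of the new direction, conversion to the trees of KerT.
-/

set_option autoImplicit false
noncomputable section
namespace Pool.Agent.Helper91.TMK

open Pool.Agent.Helper90.C75
open Pool.Agent.Helper90.KMO
open Pool.Agent.Helper90.KMT (c3 c3_bi nlf)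
open Pool.Agent.Helper86.C75 (Z)
open Pool.Agent.Helper86.CX (Cx mx andB one1)
open Pool.Agent.Helper86.CT (N3 DF Alg Mo mxL un bi mulN nbN dfN mk cst)
open Pool.Agent.Helper17.K9 (V9)
open Pool.Agent.Helper62.TVM (V3m)
open Pool.Agent.Helper91.BX (upM upW upV tu tu_self tu_lt crM avg_bt' cz_pp UU_eq)

variable {α : Type} {c : ℝ} {D : ℕ} {lf : Mch α} {A : Alg α} {t : ℕ → ℝ}

/-! ### one level higher -/

theorem TW.up (hA : AOKn c D lf A) {x : Fin 3 → ℂ} {X : V3m α} (h : TW D lf t x X) (u : ℝ) :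
    TW (D + 1) (nM D lf) (tu D t u) x (upW X) :=
  ⟨TOK.up hA h.a u, TOK.up hA h.b u, TOK.up hA h.c u⟩

theorem TV.up (hA : AOKn c D lf A) {M : Matrix (Fin 3) (Fin 3) ℂ} {V : V9 α}
    (h : TV D lf t M V) (u : ℝ) : TV (D + 1) (nM D lf) (tu D t u) M (upV V) :=
  ⟨TOK.up hA h.a u, TOK.up hA h.b u, TOK.up hA h.c u, TOK.up hA h.d u, TOK.up hA h.e u,
    TOK.up hA h.f u, TOK.up hA h.g u, TOK.up hA h.h u, TOK.up hA h.i u⟩

/-! ### the parameter of the new direction -/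

theorem af_real {s κ : ℝ} {a b c : ℕ} (h0 : 0 ≤ s) (h1 : s ≤ 1) (hc : c = (a + b) / 2)
    (h : |2 ^ 48 * κ - ((1 - s) * a + s * b)| ≤ 0) :
    ‖(UU : ℂ) * κ - ((((1 - s) ^ 2 : ℝ) : ℂ) * cz ⟨Z.p a, Z.p (nat_lit 0)⟩ +
      ((2 * s * (1 - s) : ℝ) : ℂ) * cz ⟨Z.p c, Z.p (nat_lit 0)⟩ +
      ((s ^ 2 : ℝ) : ℂ) * cz ⟨Z.p b, Z.p (nat_lit 0)⟩)‖ ≤ 1 := by
  rw [cz_pp, cz_pp, cz_pp]
  have e : (UU : ℂ) * κ - ((((1 - s) ^ 2 : ℝ) : ℂ) * ⟨(a : ℝ), ((nat_lit 0 : ℕ) : ℝ)⟩ +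
      ((2 * s * (1 - s) : ℝ) : ℂ) * ⟨(c : ℝ), ((nat_lit 0 : ℕ) : ℝ)⟩ +
      ((s ^ 2 : ℝ) : ℂ) * ⟨(b : ℝ), ((nat_lit 0 : ℕ) : ℝ)⟩) =
      ((2 ^ 48 * κ - ((1 - s) * a + s * b) - 2 * s * (1 - s) * (c - (a + b) / 2) : ℝ) : ℂ) := by
    rw [UU_eq]
    apply Complex.ext
    · simp only [Complex.sub_re, Complex.add_re, Complex.re_ofReal_mul, Complex.ofReal_re]
      ring
    · simp only [Complex.sub_im, Complex.add_im, Complex.im_ofReal_mul, Complex.ofReal_im]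
      simp
  rw [e, Complex.norm_real, Real.norm_eq_abs]
  have hc1 : (c : ℝ) ≤ (a + b) / 2 ∧ (a + b) / 2 ≤ (c : ℝ) + 1 := by
    have h2 : 2 * c ≤ a + b := by omega
    have h3 : a + b ≤ 2 * c + 1 := by omega
    have h2' : (2 : ℝ) * c ≤ a + b := by exact_mod_cast h2
    have h3' : (a : ℝ) + b ≤ 2 * c + 1 := by exact_mod_cast h3
    constructor <;> linarith
  have m0 : 0 ≤ s * (1 - s) := mul_nonneg h0 (by linarith)
  have m1 : s * (1 - s) ≤ 1 / 2 := by nlinarith [sq_nonneg (s - 1 / 2)]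
  rw [abs_le] at h ⊢
  have m2 := mul_nonneg m0 (by linarith [hc1.2] : 0 ≤ (c : ℝ) + 1 - (a + b) / 2)
  have m3 := mul_nonneg m0 (by linarith [hc1.1] : 0 ≤ (a + b) / 2 - (c : ℝ))
  constructor
  · nlinarith [h.1]
  · nlinarith [h.2]

/-- THE MODEL OF THE PARAMETER between `a` and `b` -/
theorem TOK_cr (hA : AOKn 2 D lf A) (hP : PT (D + 1) t) {κ : ℝ} {a b : ℕ}
    (h : |2 ^ 48 * κ - ((1 - t D) * a + t D * b)| ≤ 0) :
    TOK (D + 1) (nM D lf) t (κ : ℂ) (crM A a b) := by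
  refine ⟨vt_mk (AOK_nx hA) (fun i => ?_) _, fun hg => ?_⟩
  · show lf.vl (c3 (N3.q (A.cs ⟨Z.p a, Z.p (nat_lit 0)⟩)
      (A.cs ⟨Z.p (Nat.div (Nat.add a b) (nat_lit 2)), Z.p (nat_lit 0)⟩)
      (A.cs ⟨Z.p b, Z.p (nat_lit 0)⟩)) i)
    fin_cases i
    · exact hA.vcs _
    · exact hA.vcs _
    · exact hA.vcs _
  · have g0 : lf.gd (A.cs ⟨Z.p a, Z.p (nat_lit 0)⟩) := hg 0
    have g1 : lf.gd (A.cs ⟨Z.p (Nat.div (Nat.add a b) (nat_lit 2)), Z.p (nat_lit 0)⟩) := hg 1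
    have g2 : lf.gd (A.cs ⟨Z.p b, Z.p (nat_lit 0)⟩) := hg 2
    show ‖(UU : ℂ) * κ - avg (bt (t D)) (fun i => lf.ev (c3 (N3.q (A.cs ⟨Z.p a, Z.p (nat_lit 0)⟩)
      (A.cs ⟨Z.p (Nat.div (Nat.add a b) (nat_lit 2)), Z.p (nat_lit 0)⟩)
      (A.cs ⟨Z.p b, Z.p (nat_lit 0)⟩)) i) t)‖ ≤ ((Nat.add (nat_lit 0) (nat_lit 1) : ℕ) : ℝ)
    rw [avg_bt']
    show ‖(UU : ℂ) * κ - (_ * lf.ev (A.cs ⟨Z.p a, Z.p (nat_lit 0)⟩) t +
      _ * lf.ev (A.cs ⟨Z.p (Nat.div (Nat.add a b) (nat_lit 2)), Z.p (nat_lit 0)⟩) t +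
      _ * lf.ev (A.cs ⟨Z.p b, Z.p (nat_lit 0)⟩) t)‖ ≤ _
    rw [hA.cs _ g0 t, hA.cs _ g1 t, hA.cs _ g2 t]
    have h3 := af_real (hP.h0 D (by omega)) (hP.h1 D (by omega))
      (c := Nat.div (Nat.add a b) (nat_lit 2)) rfl h
    refine h3.trans (le_of_eq ?_)
    norm_num

/-- **A PARAMETER BETWEEN `a` AND `b`** (units `2 ^ (-48)`) -/
theorem cr_ex (hA : AOKn 2 D lf A) (ht : PT D t) (hD : D + 1 ≤ 4) {τ : ℝ} {a b : ℕ}
    (h1 : (a : ℝ) / 2 ^ 48 ≤ τ) (h2 : τ ≤ (b : ℝ) / 2 ^ 48) : ∃ u : ℝ, 0 ≤ u ∧ u ≤ 1 ∧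
      PT (D + 1) (tu D t u) ∧ TOK (D + 1) (nM D lf) (tu D t u) ((τ : ℝ) : ℂ) (crM A a b) := by
  rw [div_le_iff₀ (by positivity)] at h1
  rw [le_div_iff₀ (by positivity)] at h2
  have hr : Pool.Agent.Helper91.BX.Rg τ a b 0 :=
    Pool.Agent.Helper91.BX.Rg.of_mem (by linarith) (by linarith)
  obtain ⟨u, h0, h1', h3⟩ := hr.par
  refine ⟨u, h0, h1', PT.tu' ht hD h0 h1', TOK_cr hA (PT.tu' ht hD h0 h1') ?_⟩
  rw [tu_self]
  simpa using h3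

/-! ### conversion to the trees of KerT -/

theorem c3_un' {β : Type} (f : α → β) (x : N3 α) (i : Fin 3) : c3 (un f x) i = f (c3 x i) := by
  cases x <;> fin_cases i <;> rfl

/-- kernel side: the radius of the conversion, the flag -/
def crN (cr : α → Nat) (x : N3 α) : Nat :=
  N3.rec (motive := fun _ => Nat) (fun x => cr x) (fun a c b => mx (cr a) (mx (cr c) (cr b))) x
def gN (g : α → Bool) (x : N3 α) : Bool :=
  N3.rec (motive := fun _ => Bool) (fun x => g x) (fun a c b => andB (g a) (andB (g c) (g b))) x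

theorem crN_le (cr : α → ℕ) (x : N3 α) (i : Fin 3) : ((cr (c3 x i) : ℕ) : ℝ) ≤ (crN cr x : ℕ) := by
  cases x with
  | k a => exact le_rfl
  | q a c b =>
    show ((cr (c3 (N3.q a c b) i) : ℕ) : ℝ) ≤ (mx (cr a) (mx (cr c) (cr b)) : ℕ)
    fin_cases i
    · exact mx_l _ _
    · exact (mx_l _ _).trans (mx_r _ _)
    · exact (mx_r _ _).trans (mx_r _ _)

theorem gN_ok {g : α → Bool} (h : ∀ x, g x = true → lf.gd x) {x : N3 α} (hx : gN g x = true) :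
    (nM D lf).gd x := by
  cases x with
  | k a => exact fun _ => h a hx
  | q a m b =>
    obtain ⟨h1, h23⟩ := andB_t hx
    obtain ⟨h2, h3⟩ := andB_t h23
    intro i
    fin_cases i
    · exact h a h1
    · exact h m h2
    · exact h b h3

/-- THE CONVERSION ONE LEVEL HIGHER -/
theorem cvN_ok {β : Type} {lf' : β → Vt D → ℂ} {cv : α → β} {cr : α → ℕ}
    (hcv : ∀ x, lf.vl x → lf.gd x → ∀ t, PT D t →
      ‖lf.ev x t - avg (wtT D t) (lf' (cv x))‖ ≤ cr x) {x : N3 α} (hx : (nM D lf).vl x)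
    (hg : (nM D lf).gd x) (hP : PT (D + 1) t) :
    ‖(nM D lf).ev x t - avg (wtT (D + 1) t) (nlf lf' (un cv x))‖ ≤ crN cr x := by
  rw [avg_T_succ]
  show ‖avg (bt (t D)) (fun i => lf.ev (c3 x i) t) -
    avg (bt (t D)) (fun i => avg (wtT D t) (fun v => lf' (c3 (un cv x) i) v))‖ ≤ _
  rw [← avg_sub]
  refine norm_avg_le (PT.wb hP) fun i => ?_
  rw [c3_un']
  exact (hcv _ (hx i) (hg i) t (PT.dn hP)).trans (crN_le cr x i)

/-- FROM A MODEL OF THE MACHINE TO A MODEL OF KerT -/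
theorem TOK.toK {β : Type} {B : Alg β} {lf' : β → Vt D → ℂ}
    (hB : Pool.Agent.Helper90.KMT.AOK D lf' B) {cv : α → β} {cr : α → ℕ}
    (hcv : ∀ x, lf.vl x → lf.gd x → ∀ t, PT D t →
      ‖lf.ev x t - avg (wtT D t) (lf' (cv x))‖ ≤ cr x) {f : ℂ} {M : Mo α}
    (h : TOK D lf t f M) (hP : PT D t) (hg : lf.gd M.v) :
    Pool.Agent.Helper90.KMT.TOK D lf' t f (Pool.Agent.Helper86.CT.mk B (cv M.v)
      (Nat.add M.r (cr M.v))) := by
  refine ⟨Pool.Agent.Helper90.KMT.vt_mk hB _ _, ?_⟩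
  show ‖(UU : ℂ) * f - avg (wtT D t) (lf' (cv M.v))‖ ≤ ((Nat.add M.r (cr M.v) : ℕ) : ℝ)
  rw [c_add]
  have e : (UU : ℂ) * f - avg (wtT D t) (lf' (cv M.v)) =
      (UU * f - lf.ev M.v t) + (lf.ev M.v t - avg (wtT D t) (lf' (cv M.v))) := by ring
  rw [e]
  exact (norm_add_le _ _).trans (add_le_add (h.mod hg) (hcv _ h.val.vl hg t hP))

end Pool.Agent.Helper91.TMK
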