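import Pool.Agent.Helper84.TM.CTM
import Pool.Agent.Helper91.TM.Q

/-!
Taylor model machine (MP_c75db0, star frame): the models of a form in the Taylor machine `AT`.
-/

set_option autoImplicit false
noncomputable section
namespace Pool.Agent.Helper84.TM

open Pool.Agent.Helper90.KMT (PT)
open Pool.Agent.Helper86.CT (KM)
open Pool.Agent.Helper91.TM (TP AT lfT AT_ok)
open Pool.Agent.Helper91.TMK.TST (HK)
open Pool.Agent.Helper17.N9 (Kf KfM)

/-- the conversion of trees -/
theorem cotT : CotL lfT ct := CotL_T (fun _ h => h) (fun _ h => h) (fun _ _ => rfl)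

/-- THE MODELS OF A FORM in the Taylor machine -/
def kmT (k : Kf) : KM TP := kmc AT ct k

theorem HK_kmT {t : ℕ → ℝ} (hP : PT 3 t) (k : Kf) : HK 3 lfT t (KfM k t) (kmT k) :=
  HK_kmc AT_ok cotT hP k

end Pool.Agent.Helper84.TM
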