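import Pool.Agent.Helper84.TM.NU
import Pool.Agent.Helper21.TM.CVM

/-!
Taylor model machine (MP_c75db0, star frame): ONE MORE DIRECTION, part 3: helper21's conversions one
level higher.
-/

set_option autoImplicit false
noncomputable section
namespace Pool.Agent.Helper91.TMK.TST

open Pool.Agent.Helper90.C75 (Vt avg wtT bt avg_sub avg_T_succ norm_avg_le)
open Pool.Agent.Helper90.KMT (c3 nlf)
open Pool.Agent.Helper86.CX (andB)
open Pool.Agent.Helper86.CT (N3 un)

variable {α τ : Type} {D : ℕ} {lf : Mch α} {lt : τ → Vt D → ℂ} {V : Cvt α τ}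

/-- THE CONVERSION ONE LEVEL HIGHER -/
def nxV (V : Cvt α τ) : Cvt (N3 α) (N3 τ) := ⟨un V.cv, crN V.cr, gN V.ok⟩

theorem gN_c3 {g : α → Bool} {x : N3 α} (hx : gN g x = true) (i : Fin 3) : g (c3 x i) = true := by
  cases x with
  | k a => exact hx
  | q a m b =>
    obtain ⟨h1, h23⟩ := andB_tt hx
    obtain ⟨h2, h3⟩ := andB_tt h23
    fin_cases i
    · exact h1
    · exact h2
    · exact h3

theorem CvtL.nx (h : CvtL D lf lt V) : CvtL (D + 1) (nM D lf) (nlf lt) (nxV V) := by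
  refine ⟨fun {x} hx ho i => h.gd (hx i) (gN_c3 ho i), fun {x t} hx ho hP => ?_⟩
  rw [avg_T_succ]
  show ‖avg (bt (t D)) (fun i => lf.ev (c3 x i) t) -
    avg (bt (t D)) (fun i => avg (wtT D t) (fun v => lt (c3 (un V.cv x) i) v))‖ ≤ _
  rw [← avg_sub]
  refine norm_avg_le (PT.wb hP) fun i => ?_
  rw [c3_un']
  exact (h.ok (hx i) (gN_c3 ho i) (PT.dn hP)).trans (crN_le V.cr x i)

end Pool.Agent.Helper91.TMK.TST
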