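import Pool.Agent.Helper84.TM.CT
import Pool.Agent.Helper21.TM.CVM
import Pool.Agent.Helper51.FR.Mf

/-!
Taylor model machine (MP_c75db0, star frame): models of trees of controls as models of a machine
`Mch`; the models of a form.
-/

set_option autoImplicit false
noncomputable section
namespace Pool.Agent.Helper84.TM

open Pool.Agent.Helper90.C75 (Vt avg wtT Mod)
open Pool.Agent.Helper90.KMO (UU)
open Pool.Agent.Helper90.KMT (PT)
open Pool.Agent.Helper86.CT (N3 Alg Mo KM mk)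
open Pool.Agent.Helper6.MONO.W2 (Mt)
open Pool.Agent.Helper91.TM (TP evT VLT)
open Pool.Agent.Helper91.TMK (Mch AOK TOK vt_mk)
open Pool.Agent.Helper91.TMK.TST (HK)
open Pool.Agent.Helper21.SW (T3 lf3)
open Pool.Agent.Helper17.N9 (Kf KfM)
open Pool.Agent.Helper51.FR (kmK HK_kmK)

section

variable {α : Type}

/-- kernel side -/
def ctM (A : Alg α) (c : T3 → α) (m : Mo T3) : Mo α := mk A (c m.v) m.r
def ctK (A : Alg α) (c : T3 → α) (M : KM T3) : KM α :=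
  ⟨ctM A c M.a, ctM A c M.b, ctM A c M.c, ctM A c M.x, ctM A c M.y, ctM A c M.w⟩
/-- THE MODELS OF A FORM -/
def kmc (A : Alg α) (c : T3 → α) (k : Kf) : KM α := ctK A c (kmK k)

/-- THE LAWS of a conversion of trees -/
structure CotL (lf : Mch α) (c : T3 → α) : Prop where
  vl : ∀ x, lf.vl (c x)
  ev : ∀ x, lf.gd (c x) → ∀ t, PT 3 t → lf.ev (c x) t = avg (wtT 3 t) (lf3 x)

variable {lf : Mch α} {A : Alg α} {c : T3 → α} {t : ℕ → ℝ}

theorem TOK_ct (hA : AOK 3 lf A) (hc : CotL lf c) (hP : PT 3 t) {f : ℂ} {m : Mo T3}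
    (h : Pool.Agent.Helper90.KMT.TOK 3 lf3 t f m) : TOK 3 lf t f (ctM A c m) := by
  refine ⟨vt_mk hA (hc.vl _) _, fun hg => ?_⟩
  show ‖(UU : ℂ) * f - lf.ev (c m.v) t‖ ≤ (m.r : ℝ)
  rw [hc.ev _ hg t hP]
  exact h.mod

theorem HK_ct (hA : AOK 3 lf A) (hc : CotL lf c) (hP : PT 3 t) {K : Mt} {M : KM T3}
    (h : Pool.Agent.Helper82.TST.HK 3 lf3 t K M) : HK 3 lf t K (ctK A c M) :=
  ⟨TOK_ct hA hc hP h.a, TOK_ct hA hc hP h.b, TOK_ct hA hc hP h.c, TOK_ct hA hc hP h.x,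
    TOK_ct hA hc hP h.y, TOK_ct hA hc hP h.w, h.hm⟩

/-- THE MODELS OF A FORM -/
theorem HK_kmc (hA : AOK 3 lf A) (hc : CotL lf c) (hP : PT 3 t) (k : Kf) :
    HK 3 lf t (KfM k t) (kmc A c k) := HK_ct hA hc hP (HK_kmK hP k)

end

/-- the Taylor machine -/
theorem CotL_T {lf : Mch TP} (hv : ∀ x, VLT x → lf.vl x) (hg : ∀ x, lf.gd x → x.g = true)
    (he : ∀ x t, lf.ev x t = evT x t) : CotL lf ct :=
  ⟨fun x => hv _ (ct_ok x).1, fun x h t _ => (he _ t).trans ((ct_ok x).2 (hg _ h) t)⟩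

end Pool.Agent.Helper84.TM
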