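import Pool.Agent.Helper91.TM.K

/-!
Taylor model machine (MP_c75db0, star frame), kernel side: the tree of the 27 controls of a
function quadratic in each of three variables as a polynomial of the machine (exact).
-/

set_option autoImplicit false
noncomputable section
namespace Pool.Agent.Helper84.TM

open Pool.Agent.Helper86.C75 (Z)
open Pool.Agent.Helper86.CX (Cx ab)
open Pool.Agent.Helper86.CT (N3)
open Pool.Agent.Helper91.TM

/-- `x 2 ^ e` -/
def sf (e : Nat) (x : Z) : Z :=
  Z.rec (motive := fun _ => Z) (fun n => Z.p (Nat.shiftLeft n e)) (fun n => Z.m (Nat.shiftLeft n e)) x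

/-- one direction: `d = b - a`, `s = a + b`, `c` twice the middle control -/
def lq2 (e f : Nat) (d s c : Z) : Z :=
  Z.add (Z.add s c) (Z.add (sf e (Z.add d d)) (sf f (Z.sub s c)))
def lq (e f : Nat) (a c b : Z) : Z := lq2 e f (Z.sub b a) (Z.add a b) (Z.add c c)

/-- one level of the tree, four times the value -/
def lv {β : Type} (e f : Nat) (g : β → Z) (x : N3 β) : Z :=
  N3.rec (motive := fun _ => Z) (fun x => sf (nat_lit 2) (g x))
    (fun a c b => lq e f (g a) (g c) (g b)) x

/-- the sum of the controls -/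
def mq {β : Type} (g : β → Nat) (x : N3 β) : Nat :=
  N3.rec (motive := fun _ => Nat) (fun x => g x)
    (fun a c b => Nat.add (Nat.add (g a) (g c)) (g b)) x

/-- the whole tree -/
def l3 (g : Cx → Z) (x : N3 (N3 (N3 Cx))) : Z :=
  lv (nat_lit 8000) (nat_lit 16000) (lv (nat_lit 7040) (nat_lit 14080)
    (lv (nat_lit 6880) (nat_lit 13760) g)) x
def m3 (x : N3 (N3 (N3 Cx))) : Nat :=
  mq (mq (mq fun z => Nat.add (ab z.re) (ab z.im))) x

/-- a signed number modulo `2 ^ 48160` -/
def tr (x : Z) : Nat :=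
  Z.rec (motive := fun _ => Nat) (fun n => Nat.land n cMA)
    (fun n => suR (nat_lit 0) (Nat.land n cMA)) x

def ct1 (x : N3 (N3 (N3 Cx))) (m : Nat) : TP :=
  mkB2 (Nat.ble m (nat_lit 75557863725914323419135)) m (tr (sf (nat_lit 2) (l3 Cx.re x)))
    (tr (sf (nat_lit 2) (l3 Cx.im x)))
/-- THE POLYNOMIAL OF A TREE OF CONTROLS -/
def ct (x : N3 (N3 (N3 Cx))) : TP := ct1 x (Nat.mul (nat_lit 256) (m3 x))

end Pool.Agent.Helper84.TM
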