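import Pool.Agent.Helper91.TM.H
import Pool.Agent.Helper90.CX.CT1
import Pool.Agent.Helper84.TM.CTK

/-!
Taylor model machine (MP_c75db0, star frame): the polynomial of a tree of 27 controls is exact.
-/

set_option autoImplicit false
set_option exponentiation.threshold 100000
noncomputable section
namespace Pool.Agent.Helper84.TM

open Finset
open Pool.Agent.Helper86.C75 (Z)
open Pool.Agent.Helper86.CX (Cx ab)
open Pool.Agent.Helper86.CT (N3)
open Pool.Agent.Helper90.C75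
open Pool.Agent.Helper90.KMO (zv zv_p zv_m zv_add zv_sub zv_mul ab_eq cz)
open Pool.Agent.Helper90.KMT (PT nlf lf0 c3)
open Pool.Agent.Helper91.TM (TP cMA cBM suR mkB2 Sz Sz_add Sz_sub Sz_congr Sp Rp Rp_mod Rp_zero suR_ok
  vb vb_add mu mu_add Ev zc zc_re zc_im zT evT tS VLT mkB_ok m_ok Sp_add Sp_sub)

/-! ### shifts -/

/-- shifted coefficients -/
def sh {R : Type*} [Zero R] (e : ℕ) (c : ℕ → R) (i : ℕ) : R := if e ≤ i then c (i - e) else 0

theorem sum_sh {R : Type*} [CommRing R] {c w : ℕ → R} {B e n : ℕ} (hB : B + e ≤ n)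
    (hc : ∀ i, B ≤ i → c i = 0) :
    ∑ i ∈ range n, sh e c i * w i = ∑ i ∈ range n, c i * w (e + i) := by
  obtain ⟨k, rfl⟩ : ∃ k, n = e + (B + k) := ⟨n - e - B, by omega⟩
  have e1 : ∑ i ∈ range (e + (B + k)), sh e c i * w i = ∑ i ∈ range B, c i * w (e + i) := by
    rw [Finset.sum_range_add, Finset.sum_range_add]
    have h1 : ∑ x ∈ range e, sh e c x * w x = 0 := Finset.sum_eq_zero fun x hx => by
      rw [mem_range] at hx
      rw [sh, if_neg (by omega), zero_mul]
    have h2 : ∀ x, sh e c (e + x) = c x := fun x => by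
      rw [sh, if_pos (by omega), Nat.add_sub_cancel_left]
    have h3 : ∑ x ∈ range k, sh e c (e + (B + x)) * w (e + (B + x)) = 0 :=
      Finset.sum_eq_zero fun x _ => by rw [h2, hc _ (by omega), zero_mul]
    rw [h1, h3, zero_add, add_zero]
    exact Finset.sum_congr rfl fun x _ => by rw [h2]
  have e2 : ∑ i ∈ range (e + (B + k)), c i * w (e + i) = ∑ i ∈ range B, c i * w (e + i) := by
    rw [show e + (B + k) = B + (e + k) by ring, Finset.sum_range_add]
    have h1 : ∑ x ∈ range (e + k), c (B + x) * w (e + (B + x)) = 0 :=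
      Finset.sum_eq_zero fun x _ => by rw [hc _ (by omega), zero_mul]
    rw [h1, add_zero]
  rw [e1, e2]

theorem sh_sp {c : ℕ → ℤ} {B e : ℕ} (hB : B + e ≤ 301) (hc : ∀ i, B ≤ i → c i = 0) (hs : Sp c)
    (he : vb e = true) : Sp (sh e c) := by
  intro i hi
  unfold sh
  split_ifs with h
  · by_cases h1 : B ≤ i - e
    · exact hc _ h1
    · cases h2 : vb (i - e)
      · exact hs _ h2
      · have h3 := (vb_add he h2 (by omega)).1
        rw [Nat.add_sub_cancel' h, hi] at h3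
        exact absurd h3 (by decide)
  · rfl

theorem sh_hi {c : ℕ → ℤ} {B e : ℕ} (hc : ∀ i, B ≤ i → c i = 0) :
    ∀ i, B + e ≤ i → sh e c i = 0 := by
  intro i hi
  unfold sh
  split_ifs with h
  · exact hc _ (by omega)
  · rfl

/-! ### values -/

/-- the value of a real polynomial -/
def Er (s : ℕ → ℝ) (c : ℕ → ℤ) : ℝ := ∑ i ∈ range 301, (c i : ℝ) * mu s i

theorem Er_sh {s : ℕ → ℝ} {c : ℕ → ℤ} {B e : ℕ} (hB : B + e ≤ 301) (hc : ∀ i, B ≤ i → c i = 0)
    (hs : Sp c) (he : vb e = true) : Er s (sh e c) = mu s e * Er s c := by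
  have h := sum_sh (R := ℝ) (c := fun i => (c i : ℝ)) (w := mu s) hB
    (fun i hi => by rw [hc i hi]; exact Int.cast_zero)
  unfold Er
  have e1 : ∀ i, ((sh e c i : ℤ) : ℝ) = sh e (fun i => (c i : ℝ)) i := fun i => by
    unfold sh
    split_ifs
    · rfl
    · exact Int.cast_zero
  have e2 : ∑ i ∈ range 301, ((sh e c i : ℤ) : ℝ) * mu s i =
      ∑ i ∈ range 301, sh e (fun i => (c i : ℝ)) i * mu s i :=
    Finset.sum_congr rfl fun i _ => by rw [e1]
  rw [e2, h, Finset.mul_sum]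
  refine Finset.sum_congr rfl fun i _ => ?_
  by_cases h1 : B ≤ i
  · rw [hc i h1, Int.cast_zero, zero_mul, zero_mul, mul_zero]
  · cases h2 : vb i
    · rw [hs i h2, Int.cast_zero, zero_mul, zero_mul, mul_zero]
    · rw [mu_add he h2 (by omega)]
      ring

theorem Sz_sh {c : ℕ → ℤ} {B e : ℕ} (hB : B + e ≤ 301) (hc : ∀ i, B ≤ i → c i = 0) :
    Sz 301 (sh e c) = 2 ^ (160 * e) * Sz 301 c := by
  have h := sum_sh (R := ℤ) (c := c) (w := fun i => 2 ^ (160 * i)) hB hc
  have e1 : Sz 301 (sh e c) = ∑ i ∈ range 301, sh e c i * 2 ^ (160 * i) := rfl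
  rw [e1, h]
  unfold Sz
  rw [Finset.mul_sum]
  refine Finset.sum_congr rfl fun i _ => ?_
  rw [mul_add, pow_add]
  ring

theorem ab_sh {c : ℕ → ℤ} {B e : ℕ} (hB : B + e ≤ 301) (hc : ∀ i, B ≤ i → c i = 0) :
    ∑ i ∈ range 301, |sh e c i| = ∑ i ∈ range 301, |c i| := by
  have h := sum_sh (R := ℤ) (c := fun i => |c i|) (w := fun _ => 1) hB
    (fun i hi => by rw [hc i hi]; rfl)
  have e1 : ∀ i, |sh e c i| = sh e (fun i => |c i|) i := fun i => by
    unfold sh
    split_ifs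
    · rfl
    · exact abs_zero
  simp only [mul_one] at h
  rw [← h]
  exact Finset.sum_congr rfl fun i _ => e1 i

theorem Er_add (s : ℕ → ℝ) (a b : ℕ → ℤ) : Er s (fun i => a i + b i) = Er s a + Er s b := by
  unfold Er
  rw [← Finset.sum_add_distrib]
  exact Finset.sum_congr rfl fun i _ => by push_cast; ring
theorem Er_sub (s : ℕ → ℝ) (a b : ℕ → ℤ) : Er s (fun i => a i - b i) = Er s a - Er s b := by
  unfold Er
  rw [← Finset.sum_sub_distrib]
  exact Finset.sum_congr rfl fun i _ => by push_cast; ring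
theorem Er_mul (s : ℕ → ℝ) (k : ℤ) (a : ℕ → ℤ) : Er s (fun i => k * a i) = k * Er s a := by
  unfold Er
  rw [Finset.mul_sum]
  exact Finset.sum_congr rfl fun i _ => by push_cast; ring

theorem Ev_re (s : ℕ → ℝ) (a b : ℕ → ℤ) : (Ev s (zc a b)).re = Er s a := by
  unfold Ev Er
  rw [Complex.re_sum]
  refine Finset.sum_congr rfl fun i _ => ?_
  rw [Complex.re_mul_ofReal, zc_re]
theorem Ev_im (s : ℕ → ℝ) (a b : ℕ → ℤ) : (Ev s (zc a b)).im = Er s b := by
  unfold Ev Er
  rw [Complex.im_sum]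
  refine Finset.sum_congr rfl fun i _ => ?_
  rw [Complex.im_mul_ofReal, zc_im]

/-! ### packed signed numbers -/

/-- the number `x` has the coefficients `c`, all of them below `B` -/
structure PK (B : ℕ) (x : Z) (c : ℕ → ℤ) : Prop where
  eq : zv x = Sz 301 c
  sp : Sp c
  hi : ∀ i, B ≤ i → c i = 0

theorem zv_sf (e : ℕ) (x : Z) : zv (sf e x) = 2 ^ e * zv x := by
  cases x with
  | p n =>
    show ((Nat.shiftLeft n e : ℕ) : ℤ) = 2 ^ e * (n : ℤ)
    have h : Nat.shiftLeft n e = n * 2 ^ e := Nat.shiftLeft_eq n e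
    rw [h]
    push_cast
    ring
  | m n =>
    show -((Nat.shiftLeft n e : ℕ) : ℤ) = 2 ^ e * -(n : ℤ)
    have h : Nat.shiftLeft n e = n * 2 ^ e := Nat.shiftLeft_eq n e
    rw [h]
    push_cast
    ring

section

variable {B B' : ℕ} {x y : Z} {a b c : ℕ → ℤ}

theorem PK.mono (h : PK B x a) (hB : B ≤ B') : PK B' x a :=
  ⟨h.eq, h.sp, fun i hi => h.hi i (hB.trans hi)⟩

theorem PK.add (ha : PK B x a) (hb : PK B y b) : PK B (Z.add x y) (fun i => a i + b i) :=
  ⟨by rw [zv_add, Sz_add, ha.eq, hb.eq], Sp_add ha.sp hb.sp, fun i hi => by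
    show a i + b i = 0
    rw [ha.hi i hi, hb.hi i hi]; rfl⟩

theorem PK.sub (ha : PK B x a) (hb : PK B y b) : PK B (Z.sub x y) (fun i => a i - b i) :=
  ⟨by rw [zv_sub, Sz_sub, ha.eq, hb.eq], Sp_sub ha.sp hb.sp, fun i hi => by
    show a i - b i = 0
    rw [ha.hi i hi, hb.hi i hi]; rfl⟩

theorem Sz_cmul (n : ℕ) (k : ℤ) (c : ℕ → ℤ) : Sz n (fun i => k * c i) = k * Sz n c := by
  unfold Sz
  rw [Finset.mul_sum]
  exact Finset.sum_congr rfl fun i _ => by ring

theorem PK.mul4 (ha : PK B x a) : PK B (sf 2 x) (fun i => 4 * a i) :=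
  ⟨by rw [zv_sf, Sz_cmul, ha.eq]; norm_num, fun i hi => by
    show 4 * a i = 0
    rw [ha.sp i hi]; rfl, fun i hi => by
    show 4 * a i = 0
    rw [ha.hi i hi]; rfl⟩

theorem PK.sh {e E : ℕ} (ha : PK B x a) (hE : E = 160 * e) (hB : B + e ≤ 301)
    (he : vb e = true) : PK (B + e) (sf E x) (sh e a) := by
  subst hE
  exact ⟨by rw [zv_sf, Sz_sh hB ha.hi, ha.eq], sh_sp hB ha.hi ha.sp he, sh_hi ha.hi⟩

end

/-! ### a level -/

/-- a function of trees into packed numbers: value `K V`, norm `≤ K m` -/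
def LVL {β : Type} (B : ℕ) (K : ℤ) (g : β → Z) (V : β → (ℕ → ℝ) → ℝ) (m : β → ℕ) : Prop :=
  ∀ y, ∃ c, PK B (g y) c ∧ (∀ t, Er (tS t) c = K * V y t) ∧
    ∑ i ∈ range 301, |c i| ≤ K * (m y : ℤ)

/-- the coefficients of a level -/
def cq (e f : ℕ) (a c b : ℕ → ℤ) (i : ℕ) : ℤ :=
  (a i + b i + (c i + c i)) + (sh e (fun i => (b i - a i) + (b i - a i)) i +
    sh f (fun i => (a i + b i) - (c i + c i)) i)

theorem LVL.lv {β : Type} {B e f E F j : ℕ} {K : ℤ} {g : β → Z} {V : β → (ℕ → ℝ) → ℝ} {m : β → ℕ}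
    {V' : N3 β → (ℕ → ℝ) → ℝ} (h : LVL B K g V m) (hf : f = e + e) (hE : E = 160 * e)
    (hF : F = 160 * f) (hB : B + f ≤ 301) (he : vb e = true) (hvf : vb f = true)
    (hmu : ∀ s : ℕ → ℝ, mu s e = s j)
    (hk : ∀ x t, V' (N3.k x) t = V x t)
    (hq : ∀ a c b t, V' (N3.q a c b) t = (1 - t j) ^ 2 * V a t + 2 * t j * (1 - t j) * V c t +
      t j ^ 2 * V b t) :
    LVL (B + f) (4 * K) (lv E F g) V' (mq m) := by
  have hmu2 : ∀ s : ℕ → ℝ, mu s f = s j ^ 2 := by
    intro s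
    subst hf
    rw [mu_add he he (by omega), hmu]
    ring
  intro x
  cases x with
  | k x =>
    obtain ⟨c, h1, h2, h3⟩ := h x
    refine ⟨fun i => 4 * c i, h1.mul4.mono (by omega), fun t => ?_, ?_⟩
    · rw [Er_mul, h2, hk]
      push_cast
      ring
    · show ∑ i ∈ range 301, |4 * c i| ≤ 4 * K * (m x : ℤ)
      have e1 : ∀ i, |4 * c i| = 4 * |c i| := fun i => by rw [abs_mul]; rfl
      simp only [e1]
      rw [← Finset.mul_sum]
      linarith
  | q a c b =>
    obtain ⟨ca, a1, a2, a3⟩ := h a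
    obtain ⟨cc, c1, c2, c3'⟩ := h c
    obtain ⟨cb, b1, b2, b3⟩ := h b
    have d1 := b1.sub a1
    have d2 := d1.add d1
    have s1 := a1.add b1
    have s2 := c1.add c1
    have s3 := s1.add s2
    have s4 := s1.sub s2
    have k1 := d2.sh hE (by omega) he
    have k2 := s4.sh hF (by omega) hvf
    refine ⟨cq e f ca cc cb, ?_, fun t => ?_, ?_⟩
    · exact (s3.mono (by omega)).add ((k1.mono (by omega)).add k2)
    · have g1 : Er (tS t) (cq e f ca cc cb) = (Er (tS t) ca + Er (tS t) cb +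
          (Er (tS t) cc + Er (tS t) cc)) + (tS t j * ((Er (tS t) cb - Er (tS t) ca) +
          (Er (tS t) cb - Er (tS t) ca)) + tS t j ^ 2 * ((Er (tS t) ca + Er (tS t) cb) -
          (Er (tS t) cc + Er (tS t) cc))) := by
        have f1 : Er (tS t) (cq e f ca cc cb) = Er (tS t) (fun i => ca i + cb i +
            (cc i + cc i)) + (Er (tS t) (sh e (fun i => (cb i - ca i) + (cb i - ca i))) +
            Er (tS t) (sh f (fun i => (ca i + cb i) - (cc i + cc i)))) := by
          rw [← Er_add, ← Er_add]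
          rfl
        rw [f1, Er_sh (by omega) d2.hi d2.sp he, Er_sh (by omega) s4.hi s4.sp hvf, hmu, hmu2]
        simp only [Er_add, Er_sub]
      rw [g1, a2, b2, c2, hq]
      unfold tS
      push_cast
      ring
    · show ∑ i ∈ range 301, |cq e f ca cc cb i| ≤ 4 * K * ((m a + m c + m b : ℕ) : ℤ)
      have g1 : ∑ i ∈ range 301, |cq e f ca cc cb i| ≤ ∑ i ∈ range 301,
          ((|ca i| + |cb i| + 2 * |cc i|) + (|sh e (fun i => (cb i - ca i) + (cb i - ca i)) i| +
          |sh f (fun i => (ca i + cb i) - (cc i + cc i)) i|)) := by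
        refine Finset.sum_le_sum fun i _ => ?_
        unfold cq
        have q1 := abs_add_le (ca i + cb i + (cc i + cc i))
          (sh e (fun i => (cb i - ca i) + (cb i - ca i)) i +
            sh f (fun i => (ca i + cb i) - (cc i + cc i)) i)
        have q2 := abs_add_le (sh e (fun i => (cb i - ca i) + (cb i - ca i)) i)
            (sh f (fun i => (ca i + cb i) - (cc i + cc i)) i)
        have q3 := abs_add_le (ca i + cb i) (cc i + cc i)
        have q4 := abs_add_le (ca i) (cb i)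
        have q5 := abs_add_le (cc i) (cc i)
        linarith
      have g2 : ∑ i ∈ range 301, |sh e (fun i => (cb i - ca i) + (cb i - ca i)) i| ≤
          2 * (∑ i ∈ range 301, |ca i|) + 2 * ∑ i ∈ range 301, |cb i| := by
        rw [ab_sh (by omega) d2.hi, Finset.mul_sum, Finset.mul_sum, ← Finset.sum_add_distrib]
        refine Finset.sum_le_sum fun i _ => ?_
        have q1 := abs_add_le (cb i - ca i) (cb i - ca i)
        have q2 := abs_sub (cb i) (ca i)
        linarith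
      have g3 : ∑ i ∈ range 301, |sh f (fun i => (ca i + cb i) - (cc i + cc i)) i| ≤
          (∑ i ∈ range 301, |ca i|) + (∑ i ∈ range 301, |cb i|) +
            2 * ∑ i ∈ range 301, |cc i| := by
        rw [ab_sh (by omega) s4.hi, Finset.mul_sum, ← Finset.sum_add_distrib,
          ← Finset.sum_add_distrib]
        refine Finset.sum_le_sum fun i _ => ?_
        have q1 := abs_sub (ca i + cb i) (cc i + cc i)
        have q2 := abs_add_le (ca i) (cb i)
        have q3 := abs_add_le (cc i) (cc i)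
        linarith
      rw [Finset.sum_add_distrib, Finset.sum_add_distrib, Finset.sum_add_distrib,
        Finset.sum_add_distrib, ← Finset.mul_sum] at g1
      push_cast
      linarith

/-! ### averages -/

theorem av_bt (s : ℝ) (f : Fin 3 → ℂ) : avg (bt s) f =
    (((1 - s) ^ 2 : ℝ) : ℂ) * f 0 + ((2 * s * (1 - s) : ℝ) : ℂ) * f 1 + ((s ^ 2 : ℝ) : ℂ) * f 2 := by
  unfold avg
  rw [Fin.sum_univ_three]
  rfl

section

variable {α : Type} {D : ℕ} {lf : α → Vt D → ℂ} {φ : ℂ → ℝ}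

theorem av_k (x : α) (t : ℕ → ℝ) : avg (wtT (D + 1) t) (nlf lf (N3.k x)) = avg (wtT D t) (lf x) := by
  rw [avg_T_succ, av_bt]
  show (((1 - t D) ^ 2 : ℝ) : ℂ) * avg (wtT D t) (fun v => lf x v) +
    ((2 * t D * (1 - t D) : ℝ) : ℂ) * avg (wtT D t) (fun v => lf x v) +
    (((t D) ^ 2 : ℝ) : ℂ) * avg (wtT D t) (fun v => lf x v) = avg (wtT D t) (lf x)
  have e : (fun v => lf x v) = lf x := rfl
  rw [e]
  push_cast
  ring

theorem av_q (a c b : α) (t : ℕ → ℝ) : avg (wtT (D + 1) t) (nlf lf (N3.q a c b)) =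
    (((1 - t D) ^ 2 : ℝ) : ℂ) * avg (wtT D t) (lf a) +
    ((2 * t D * (1 - t D) : ℝ) : ℂ) * avg (wtT D t) (lf c) +
    (((t D) ^ 2 : ℝ) : ℂ) * avg (wtT D t) (lf b) := by
  rw [avg_T_succ, av_bt]
  rfl

theorem av_q' (h1 : ∀ x y, φ (x + y) = φ x + φ y) (h2 : ∀ (r : ℝ) x, φ ((r : ℂ) * x) = r * φ x)
    (a c b : α) (t : ℕ → ℝ) : φ (avg (wtT (D + 1) t) (nlf lf (N3.q a c b))) =
    (1 - t D) ^ 2 * φ (avg (wtT D t) (lf a)) + 2 * t D * (1 - t D) * φ (avg (wtT D t) (lf c)) +
      t D ^ 2 * φ (avg (wtT D t) (lf b)) := by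
  rw [av_q, h1, h1, h2, h2, h2]

end

/-! ### the tree -/

theorem av_0 (z : Cx) (t : ℕ → ℝ) : avg (wtT 0 t) (lf0 z) = cz z := by
  unfold avg
  show ∑ _i : Unit, ((1 : ℝ) : ℂ) * cz z = cz z
  simp

theorem leaf_ok {φ : ℂ → ℝ} {g : Cx → Z} (hg : ∀ z, (zv (g z) : ℝ) = φ (cz z)) :
    LVL 1 1 g (fun z t => φ (avg (wtT 0 t) (lf0 z))) (fun z => ab (g z)) := by
  intro z
  have h0 : ∀ {R : Type} [CommRing R] (v : R) (w : ℕ → R), ∑ i ∈ range 301,
      (if i = 0 then v else 0) * w i = v * w 0 := by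
    intro R _ v w
    rw [show (301 : ℕ) = 300 + 1 from rfl, Finset.sum_range_succ']
    simp
  refine ⟨fun i => if i = 0 then zv (g z) else 0, ⟨?_, ?_, ?_⟩, fun t => ?_, ?_⟩
  · unfold Sz
    rw [h0]
    simp
  · intro i hi
    have : i ≠ 0 := by
      rintro rfl
      exact absurd hi (by decide)
    exact if_neg this
  · intro i hi
    exact if_neg (by omega)
  · have e : Er (tS t) (fun i => if i = 0 then zv (g z) else 0) =
        ∑ i ∈ range 301, (if i = 0 then ((zv (g z) : ℤ) : ℝ) else 0) * mu (tS t) i := by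
      unfold Er
      refine Finset.sum_congr rfl fun i _ => ?_
      show ((if i = 0 then zv (g z) else 0 : ℤ) : ℝ) * _ = _
      split_ifs
      · rfl
      · rw [Int.cast_zero]
    have e0 : mu (tS t) 0 = 1 := by
      have a0 : Pool.Agent.Helper91.TM.x0 0 = 0 := rfl
      have a1 : Pool.Agent.Helper91.TM.x1 0 = 0 := rfl
      have a2 : Pool.Agent.Helper91.TM.x2 0 = 0 := rfl
      unfold mu
      rw [a0, a1, a2]
      simp
    rw [e, h0, e0, hg]
    show φ (cz z) * 1 = ((1 : ℤ) : ℝ) * φ (avg (wtT 0 t) (lf0 z))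
    rw [av_0]
    push_cast
    ring
  · have h := h0 (R := ℤ) |zv (g z)| (fun _ => 1)
    simp only [mul_one] at h
    have e : ∀ i : ℕ, |if i = 0 then zv (g z) else 0| = if i = 0 then |zv (g z)| else 0 := by
      intro i
      split_ifs
      · rfl
      · exact abs_zero
    show ∑ i ∈ range 301, |if i = 0 then zv (g z) else 0| ≤ 1 * ((ab (g z) : ℕ) : ℤ)
    simp only [e]
    rw [h, one_mul, ab_eq]

theorem mu43 (s : ℕ → ℝ) : mu s 43 = s 0 := by
  have a0 : Pool.Agent.Helper91.TM.x0 43 = 1 := rfl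
  have a1 : Pool.Agent.Helper91.TM.x1 43 = 0 := rfl
  have a2 : Pool.Agent.Helper91.TM.x2 43 = 0 := rfl
  unfold mu
  rw [a0, a1, a2]
  simp
theorem mu44 (s : ℕ → ℝ) : mu s 44 = s 1 := by
  have a0 : Pool.Agent.Helper91.TM.x0 44 = 0 := rfl
  have a1 : Pool.Agent.Helper91.TM.x1 44 = 1 := rfl
  have a2 : Pool.Agent.Helper91.TM.x2 44 = 0 := rfl
  unfold mu
  rw [a0, a1, a2]
  simp
theorem mu50 (s : ℕ → ℝ) : mu s 50 = s 2 := by
  have a0 : Pool.Agent.Helper91.TM.x0 50 = 0 := rfl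
  have a1 : Pool.Agent.Helper91.TM.x1 50 = 0 := rfl
  have a2 : Pool.Agent.Helper91.TM.x2 50 = 1 := rfl
  unfold mu
  rw [a0, a1, a2]
  simp

theorem l3_ok {φ : ℂ → ℝ} (h1 : ∀ x y, φ (x + y) = φ x + φ y)
    (h2 : ∀ (r : ℝ) x, φ ((r : ℂ) * x) = r * φ x) {g : Cx → Z}
    (hg : ∀ z, (zv (g z) : ℝ) = φ (cz z)) :
    LVL 275 64 (l3 g) (fun x t => φ (avg (wtT 3 t) (nlf (nlf (nlf lf0)) x)))
      (mq (mq (mq fun z => ab (g z)))) := by
  have k0 := leaf_ok hg
  have k1 := LVL.lv (B := 1) (e := 43) (f := 86) (E := 6880) (F := 13760) (j := 0)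
    (V' := fun x t => φ (avg (wtT 1 t) (nlf lf0 x))) k0 rfl rfl rfl (by norm_num) (by decide)
    (by decide) mu43 (fun x t => by rw [av_k]) (fun a c b t => av_q' h1 h2 a c b t)
  have k2 := LVL.lv (B := 87) (e := 44) (f := 88) (E := 7040) (F := 14080) (j := 1)
    (V' := fun x t => φ (avg (wtT 2 t) (nlf (nlf lf0) x))) k1 rfl rfl rfl (by norm_num) (by decide)
    (by decide) mu44 (fun x t => by rw [av_k]) (fun a c b t => av_q' h1 h2 a c b t)
  have k3 := LVL.lv (B := 175) (e := 50) (f := 100) (E := 8000) (F := 16000) (j := 2)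
    (V' := fun x t => φ (avg (wtT 3 t) (nlf (nlf (nlf lf0)) x))) k2 rfl rfl rfl (by norm_num)
    (by decide) (by decide) mu50 (fun x t => by rw [av_k]) (fun a c b t => av_q' h1 h2 a c b t)
  have e : (4 * (4 * (4 * 1)) : ℤ) = 64 := by norm_num
  rw [e] at k3
  exact k3

theorem mq_add {β : Type} (f g : β → ℕ) (x : N3 β) :
    mq (fun z => f z + g z) x = mq f x + mq g x := by
  cases x with
  | k x => rfl
  | q a c b =>
    show f a + g a + (f c + g c) + (f b + g b) = (f a + f c + f b) + (g a + g c + g b)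
    ring

theorem m3_eq (x : N3 (N3 (N3 Cx))) :
    m3 x = mq (mq (mq fun z => ab z.re)) x + mq (mq (mq fun z => ab z.im)) x := by
  have e1 : mq (fun z => Nat.add (ab (Cx.re z)) (ab (Cx.im z))) =
      fun z => mq (fun z => ab z.re) z + mq (fun z => ab z.im) z := funext fun z => mq_add _ _ z
  have e2 : mq (mq (fun z => Nat.add (ab (Cx.re z)) (ab (Cx.im z)))) =
      fun z => mq (mq fun z => ab z.re) z + mq (mq fun z => ab z.im) z := by
    rw [e1]
    exact funext fun z => mq_add _ _ z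
  unfold m3
  rw [e2]
  exact mq_add _ _ x

theorem tr_ok {B : ℕ} {x : Z} {c : ℕ → ℤ} (h : PK B x c) : Rp (tr x) c := by
  cases x with
  | p n =>
    refine Rp_mod (x := n) ?_ h.sp
    rw [← h.eq]
    rfl
  | m n =>
    have h1 : Rp (Nat.land n cMA) (fun i => 0 - c i) := by
      refine Rp_mod (x := n) ?_ (fun i hi => ?_)
      · have e : (n : ℤ) = Sz 301 (fun i => 0 - c i) := by
          rw [Sz_sub, ← h.eq]
          have : Sz 301 (fun _ => 0) = 0 := by
            unfold Sz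
            simp
          rw [this, zv_m]
          ring
        rw [e]
      · show 0 - c i = 0
        rw [h.sp i hi]
        rfl
    have h2 := suR_ok Rp_zero h1
    have e : (fun i => 0 - (0 - c i)) = c := by
      funext i
      ring
    rw [e] at h2
    exact h2

/-- THE POLYNOMIAL OF A TREE -/
theorem ct_ok (x : N3 (N3 (N3 Cx))) : VLT (ct x) ∧ ((ct x).g = true →
    ∀ t, evT (ct x) t = avg (wtT 3 t) (nlf (nlf (nlf lf0)) x)) := by
  obtain ⟨a, a1, a2, a3⟩ := l3_ok (φ := Complex.re) Complex.add_re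
    (fun r x => Complex.re_ofReal_mul r x) (g := Cx.re) (fun _ => rfl) x
  obtain ⟨b, b1, b2, b3⟩ := l3_ok (φ := Complex.im) Complex.add_im
    (fun r x => Complex.im_ofReal_mul r x) (g := Cx.im) (fun _ => rfl) x
  have H : Nat.ble (Nat.mul (nat_lit 256) (m3 x)) (nat_lit 75557863725914323419135) = true →
      Rp (tr (sf (nat_lit 2) (l3 Cx.re x))) (fun i => 4 * a i) ∧
      Rp (tr (sf (nat_lit 2) (l3 Cx.im x))) (fun i => 4 * b i) ∧
      ∑ i ∈ range 301, (|4 * a i| + |4 * b i|) < 2 ^ 76 := by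
    intro h
    refine ⟨tr_ok a1.mul4, tr_ok b1.mul4, ?_⟩
    have h1 := m_ok h
    have h2 : ((Nat.mul 256 (m3 x) : ℕ) : ℤ) < 2 ^ 76 := by exact_mod_cast h1
    have e : ((Nat.mul 256 (m3 x) : ℕ) : ℤ) = 256 * (m3 x : ℤ) := by
      show ((256 * m3 x : ℕ) : ℤ) = _
      push_cast
      rfl
    rw [e, m3_eq] at h2
    push_cast at h2
    have e4 : ∀ y : ℤ, |4 * y| = 4 * |y| := fun y => by rw [abs_mul]; rfl
    simp only [e4]
    rw [Finset.sum_add_distrib, ← Finset.mul_sum, ← Finset.mul_sum]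
    linarith
  obtain ⟨h1, h2⟩ := mkB_ok (h := Nat.mul (nat_lit 256) (m3 x)) H
  refine ⟨h1, fun hg t => ?_⟩
  have h3 : zT (ct x) = zc (fun i => 4 * a i) (fun i => 4 * b i) := h2 hg
  unfold evT
  rw [h3]
  apply Complex.ext
  · have e : (Ev (tS t) (zc (fun i => 4 * a i) (fun i => 4 * b i)) / 256).re =
        Er (tS t) (fun i => 4 * a i) / 256 := by
      rw [← Ev_re (tS t) _ (fun i => 4 * b i)]
      have := Complex.div_ofReal_re (Ev (tS t) (zc (fun i => 4 * a i) (fun i => 4 * b i))) 256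
      push_cast at this
      exact this
    rw [e, Er_mul, a2]
    push_cast
    ring
  · have e : (Ev (tS t) (zc (fun i => 4 * a i) (fun i => 4 * b i)) / 256).im =
        Er (tS t) (fun i => 4 * b i) / 256 := by
      rw [← Ev_im (tS t) (fun i => 4 * a i)]
      have := Complex.div_ofReal_im (Ev (tS t) (zc (fun i => 4 * a i) (fun i => 4 * b i))) 256
      push_cast at this
      exact this
    rw [e, Er_mul, b2]
    push_cast
    ring

end Pool.Agent.Helper84.TM
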